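import Pool.Agent.Q9h3.MC.Defs

/-!
The canonical form of a formula: the variables are renumbered and repeated clauses are removed. There are few
canonical formulas with few variables and clauses of bounded width.
-/

namespace Pool.Agent.Q9h3.MC

open Pool.Agent.Lib.CX

/-- The canonical form. -/
def canon (φ : Cnf) : Cnf := (φ.map fun C => C.map fun l => (φ.vars.idxOf l.1, l.2)).dedup

set_option synthInstance.maxSize 1000 in
theorem PT.canon' : PT canon := by
  unfold canon Cnf.vars
  fun_prop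

theorem mem_vars {φ : Cnf} {C : List (ℕ × Bool)} (hC : C ∈ φ) {l : ℕ × Bool} (hl : l ∈ C) : l.1 ∈ φ.vars := by
  rw [Cnf.vars, List.mem_dedup, List.mem_map]
  exact ⟨l, List.mem_flatten.2 ⟨C, hC, hl⟩, rfl⟩

theorem canon_sat (φ : Cnf) : (canon φ).Sat ↔ φ.Sat := by
  constructor
  · rintro ⟨v, hv⟩
    refine ⟨fun x => v (φ.vars.idxOf x), fun C hC => ?_⟩
    obtain ⟨l, hl, e⟩ := hv (C.map fun l => (φ.vars.idxOf l.1, l.2))
      (by rw [canon, List.mem_dedup]; exact List.mem_map_of_mem hC)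
    obtain ⟨l', hl', rfl⟩ := List.mem_map.1 hl
    exact ⟨l', hl', e⟩
  · rintro ⟨v, hv⟩
    obtain ⟨u, hu⟩ := exists_factor (l := φ.vars) (f := fun x => φ.vars.idxOf x)
      (fun _ hx _ _ e => (List.idxOf_inj hx).1 e) v false
    refine ⟨u, fun C hC => ?_⟩
    rw [canon, List.mem_dedup, List.mem_map] at hC
    obtain ⟨C', hC', rfl⟩ := hC
    obtain ⟨l, hl, e⟩ := hv C' hC'
    exact ⟨_, List.mem_map_of_mem hl, by rw [← e]; exact hu _ (mem_vars hC' hl)⟩

/-- The lists of length at most `ℓ` with members in `A` form a set of size at most `(|A| + 1) ^ ℓ`. -/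
theorem exists_lists {A : Type} (S : Finset A) (ℓ : ℕ) :
    ∃ Y : Finset (List A), Y.card ≤ (S.card + 1) ^ ℓ ∧ ∀ l : List A, l.length ≤ ℓ → (∀ x ∈ l, x ∈ S) → l ∈ Y := by
  classical
  induction ℓ with
  | zero => exact ⟨{[]}, by simp, fun l h _ => by simpa using h⟩
  | succ ℓ ih =>
    obtain ⟨Y, h1, h2⟩ := ih
    refine ⟨insert [] ((S ×ˢ Y).image fun p => p.1 :: p.2), ?_, fun l hl h => ?_⟩
    · have h3 := Finset.card_insert_le ([] : List A) ((S ×ˢ Y).image fun p => p.1 :: p.2)
      have h4 := Finset.card_image_le (s := S ×ˢ Y) (f := fun p : A × List A => p.1 :: p.2)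
      rw [Finset.card_product] at h4
      have h5 : 1 ≤ (S.card + 1) ^ ℓ := Nat.one_le_pow _ _ (by omega)
      calc _ ≤ S.card * Y.card + 1 := by omega
        _ ≤ S.card * (S.card + 1) ^ ℓ + (S.card + 1) ^ ℓ := by
            have := Nat.mul_le_mul_left S.card h1
            omega
        _ = (S.card + 1) ^ (ℓ + 1) := by ring
    · rcases l with _ | ⟨a, l⟩
      · exact Finset.mem_insert_self _ _
      · refine Finset.mem_insert_of_mem (Finset.mem_image.2 ⟨(a, l), Finset.mem_product.2 ⟨h a (by simp),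
          h2 l (by simpa using hl) fun x hx => h x (by simp [hx])⟩, rfl⟩)

/-- There are at most `2 ^ (c ^ 2)` canonical formulas of width at most `d` with at most `v` variables,
with `c = (2 v + 1) ^ d`. -/
theorem exists_canon (v d : ℕ) :
    ∃ Y : Finset Cnf, Y.card ≤ 2 ^ (((2 * v + 1) ^ d) ^ 2) ∧
      ∀ φ : Cnf, φ.Width d → φ.vars.length ≤ v → canon φ ∈ Y := by
  classical
  obtain ⟨A, hA1, hA2⟩ := exists_lists ((Finset.range v) ×ˢ (Finset.univ : Finset Bool)) d
  rw [Finset.card_product, Finset.card_range, Finset.card_univ, Fintype.card_bool, mul_comm] at hA1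
  obtain ⟨Y, hY1, hY2⟩ := exists_lists A A.card
  refine ⟨Y, ?_, fun φ h1 h2 => ?_⟩
  · calc Y.card ≤ (A.card + 1) ^ A.card := hY1
      _ ≤ (2 ^ A.card) ^ A.card := Nat.pow_le_pow_left Nat.lt_two_pow_self _
      _ = 2 ^ (A.card ^ 2) := by rw [← pow_mul, sq]
      _ ≤ _ := Nat.pow_le_pow_right (by norm_num) (Nat.pow_le_pow_left hA1 2)
  · have h3 : ∀ C ∈ canon φ, C ∈ A := fun C hC => by
      rw [canon, List.mem_dedup, List.mem_map] at hC
      obtain ⟨C', hC', rfl⟩ := hC
      refine hA2 _ (by simpa using h1 C' hC') fun l hl => ?_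
      obtain ⟨l', hl', rfl⟩ := List.mem_map.1 hl
      simp only [Finset.mem_product, Finset.mem_range, Finset.mem_univ, and_true]
      exact (List.idxOf_lt_length_of_mem (mem_vars hC' hl')).trans_le h2
    refine hY2 _ ?_ h3
    have hnd : (canon φ).Nodup := List.nodup_dedup _
    rw [← List.toFinset_card_of_nodup hnd]
    exact Finset.card_le_card fun C hC => h3 C (List.mem_toFinset.1 hC)

end Pool.Agent.Q9h3.MC
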