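import Pool.Agent.Lib.lead.CXBase

/-!
The classes `M[1]` and `W[1]`: CNF formulas, the problem p-log-SAT, fpt-reductions, and co-nondeterministic
nonuniform fpt Turing reductions of p-CLIQUE to p-log-SAT with few queries.
-/

namespace Pool.Agent.Q9h3.MC

open Pool.Agent.Lib.CX

/-- A CNF formula: a list of clauses; a clause is a list of literals; the literal `(x, true)` is the
variable `x` and `(x, false)` its negation. -/
abbrev Cnf := List (List (ℕ × Bool))

/-- `φ` is satisfiable. -/
def Cnf.Sat (φ : Cnf) : Prop := ∃ v : ℕ → Bool, ∀ C ∈ φ, ∃ l ∈ C, v l.1 = l.2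

/-- All clauses have at most `d` literals. -/
def Cnf.Width (d : ℕ) (φ : Cnf) : Prop := ∀ C ∈ φ, C.length ≤ d

/-- The variables of `φ`. -/
def Cnf.vars (φ : Cnf) : List ℕ := (φ.flatten.map Prod.fst).dedup

/-- The parameter of p-log-SAT: the number of variables divided by the logarithm of the size. -/
noncomputable def par (φ : Cnf) : ℕ := ⌈(φ.vars.length : ℝ) / Real.logb 2 (size φ)⌉₊

/-- p-log-SAT for formulas with clauses of at most `d` literals. -/
def LogSat (d : ℕ) (φ : Cnf) : Prop := φ.Width d ∧ φ.Sat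

section red

variable {α β : Type} [Enc α] [Enc β]

/-- An fpt-reduction from `(Q, κ)` to `(Q', κ')`: `R x` is computed in time polynomial in the size of `x` and
`t (κ x)`, and `κ' (R x) ≤ g (κ x)`, with `t` and `g` computable. -/
def FptRed (Q : α → Prop) (κ : α → ℕ) (Q' : β → Prop) (κ' : β → ℕ) : Prop :=
  ∃ (R : α → β) (t g : ℕ → ℕ) (M : α × List Unit → β), Computable t ∧ Computable g ∧ PT M ∧
    ∀ x, R x = M (x, List.replicate (t (κ x)) ()) ∧ (Q x ↔ Q' (R x)) ∧ κ' (R x) ≤ g (κ x)

/-- `(Q, κ)` is in `W[1]`: it is fpt-reducible to p-CLIQUE. -/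
def InW1 (Q : α → Prop) (κ : α → ℕ) : Prop := FptRed Q κ CliqueP fun a => a.2

/-- `(Q, κ)` is in `M[1]`: it is fpt-reducible to p-log-SAT for the formulas of width `d`, for some `d`. -/
def InM1 (Q : α → Prop) (κ : α → ℕ) : Prop := ∃ d, FptRed Q κ (LogSat d) par

end red

/-- `M[1] = W[1]`. -/
def M1EqW1 : Prop := ∀ (α : Type) [Enc α] (Q : α → Prop) (κ : α → ℕ), PT κ → (InM1 Q κ ↔ InW1 Q κ)

open Classical in
/-- The answers to the first `m` queries, in the run with advice `a`, input `x` and guess `r`; the query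
`D (a, x, r, b)` depends on the list `b` of the answers received so far. -/
noncomputable def answers (D : List Bool × (Gr × ℕ) × List Bool × List Bool → Cnf)
    (a : List Bool) (x : Gr × ℕ) (r : List Bool) : ℕ → List Bool
  | 0 => []
  | i + 1 => answers D a x r i ++ [decide (D (a, x, r, answers D a x r i)).Sat]

/-- p-CLIQUE has a co-nondeterministic nonuniform fpt Turing reduction to small satisfiability questions, with few
queries. For the inputs of size at most `N` with parameter `k`, at most `t k * N ^ (1 - ε)` queries are asked; the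
queries are computed by `D` and the outcome by `O`, both in polynomial time, from an advice `a`, the input `x`, a
guess `r` and the answers received so far; the input has a clique of size `k` if and only if the outcome is `true`
for all guesses; the queries are formulas with at most `v k N` variables and clauses of at most `w k N` literals,
where `(v k N + 1) ^ (w k N) = N ^ (o(1))` for every `k`. The functions `t`, `v` and `w` are arbitrary. -/
def FewQueries : Prop :=
  ∃ (D : List Bool × (Gr × ℕ) × List Bool × List Bool → Cnf)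
    (O : List Bool × (Gr × ℕ) × List Bool × List Bool → Bool) (t : ℕ → ℕ) (v w : ℕ → ℕ → ℕ) (c : ℕ) (ε : ℝ),
    0 < ε ∧ PT D ∧ PT O ∧
    (∀ k, ∀ δ : ℝ, 0 < δ → ∀ᶠ N : ℕ in Filter.atTop, ((v k N : ℝ) + 1) ^ (w k N) ≤ (N : ℝ) ^ δ) ∧
    ∀ k N : ℕ, ∃ (a : List Bool) (m : ℕ),
      a.length ≤ t k * (N + 1) ^ c ∧ (m : ℝ) ≤ t k * (N : ℝ) ^ (1 - ε) ∧
      ∀ x : Gr × ℕ, x.2 = k → size x ≤ N →
        (∀ r : List Bool, r.length ≤ t k * (N + 1) ^ c → ∀ i < m,
          (D (a, x, r, answers D a x r i)).Width (w k N) ∧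
          (D (a, x, r, answers D a x r i)).vars.length ≤ v k N) ∧
        (CliqueP x ↔ ∀ r : List Bool, r.length ≤ t k * (N + 1) ^ c → O (a, x, r, answers D a x r m) = true)

/-- Nonuniform certificates of fpt size for the graphs without a clique of size `k`. -/
def CliqueFreeCert : Prop :=
  ∃ (V : List Bool × (Gr × ℕ) × List Bool → Bool) (F : ℕ → ℕ) (c : ℕ), PT V ∧
    ∀ k ≥ 2, ∀ n : ℕ, ∃ a : List Bool, a.length ≤ F k * (n + 1) ^ c ∧
      ∀ G : Gr, G.n ≤ n → (¬ CliqueP (G, k) ↔
        ∃ π : List Bool, π.length ≤ F k * (n + 1) ^ c ∧ V (a, (G, k), π) = true)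

/-- Nonuniform certificates of subexponential size for the unsatisfiable formulas of width `d`, for all `d`. -/
def SubexpCert : Prop :=
  ∀ d : ℕ, ∃ V : List Bool × Cnf × List Bool → Bool, PT V ∧ ∀ ε : ℝ, 0 < ε → ∃ C : ℝ, ∀ n : ℕ,
    ∃ a : List Bool, (a.length : ℝ) ≤ C * 2 ^ (ε * n) ∧
      ∀ φ : Cnf, φ.Width d → (∀ x ∈ φ.vars, x < n) → (¬ φ.Sat ↔
        ∃ π : List Bool, (π.length : ℝ) ≤ C * 2 ^ (ε * n) ∧ V (a, φ, π) = true)

section

variable {α : Type} [Enc α]

theorem FptRed.refl (Q : α → Prop) (κ : α → ℕ) : FptRed Q κ Q κ :=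
  ⟨fun x => x, fun _ => 0, fun k => k, fun p => p.1, Computable.const 0, Computable.id, PT.fst',
    fun _ => ⟨rfl, Iff.rfl, le_rfl⟩⟩

end

end Pool.Agent.Q9h3.MC
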