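import Pool.Agent.Q9h3.MC.Defs

/-!
Bounds of the form `F k * (u + 1) ^ c`, bit-string codes of typed advices and certificates, and the growth
estimate used for the choice of the number of graphs.
-/

namespace Pool.Agent.Q9h3.MC

open Pool.Agent.Lib.CX

/-- `f k u` is at most `F k * (u + 1) ^ c`. -/
def FB (f : ℕ → ℕ → ℕ) : Prop := ∃ (F : ℕ → ℕ) (c : ℕ), ∀ k u, f k u ≤ F k * (u + 1) ^ c

theorem FB.mono {f g : ℕ → ℕ → ℕ} (h : FB f) (e : ∀ k u, g k u ≤ f k u) : FB g := by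
  obtain ⟨F, c, h⟩ := h
  exact ⟨F, c, fun k u => (e k u).trans (h k u)⟩

theorem FB.par (F : ℕ → ℕ) : FB fun k _ => F k := ⟨F, 0, fun k u => by simp⟩

theorem FB.id : FB fun _ u => u := ⟨fun _ => 1, 1, fun k u => by simp⟩

theorem FB.add {f g : ℕ → ℕ → ℕ} (hf : FB f) (hg : FB g) : FB fun k u => f k u + g k u := by
  obtain ⟨F, c, h⟩ := hf
  obtain ⟨F', c', h'⟩ := hg
  refine ⟨fun k => F k + F' k, c + c', fun k u => ?_⟩
  have h1 : (u + 1) ^ c ≤ (u + 1) ^ (c + c') := Nat.pow_le_pow_right (by omega) (by omega)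
  have h2 : (u + 1) ^ c' ≤ (u + 1) ^ (c + c') := Nat.pow_le_pow_right (by omega) (by omega)
  calc f k u + g k u ≤ F k * (u + 1) ^ c + F' k * (u + 1) ^ c' := Nat.add_le_add (h k u) (h' k u)
    _ ≤ F k * (u + 1) ^ (c + c') + F' k * (u + 1) ^ (c + c') :=
        Nat.add_le_add (Nat.mul_le_mul_left _ h1) (Nat.mul_le_mul_left _ h2)
    _ = _ := by ring

theorem FB.mul {f g : ℕ → ℕ → ℕ} (hf : FB f) (hg : FB g) : FB fun k u => f k u * g k u := by
  obtain ⟨F, c, h⟩ := hf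
  obtain ⟨F', c', h'⟩ := hg
  refine ⟨fun k => F k * F' k, c + c', fun k u => ?_⟩
  calc f k u * g k u ≤ (F k * (u + 1) ^ c) * (F' k * (u + 1) ^ c') := Nat.mul_le_mul (h k u) (h' k u)
    _ = _ := by ring

theorem FB.pow {f : ℕ → ℕ → ℕ} (hf : FB f) (n : ℕ) : FB fun k u => f k u ^ n := by
  induction n with
  | zero => simpa using FB.par fun _ => 1
  | succ n ih => simpa only [pow_succ] using ih.mul hf

theorem FB.eval {f : ℕ → ℕ → ℕ} (hf : FB f) (q : Polynomial ℕ) : FB fun k u => q.eval (f k u) := by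
  induction q using Polynomial.induction_on' with
  | add p q hp hq => simpa using hp.add hq
  | monomial n a => simpa using (FB.par fun _ => a).mul (hf.pow n)

/-- Substitution of `(z k * (n + 1)) ^ p`. -/
theorem FB.sub {f : ℕ → ℕ → ℕ} (hf : FB f) (z : ℕ → ℕ) (p : ℕ) : FB fun k n => f k ((z k * (n + 1)) ^ p) := by
  obtain ⟨F, c, h⟩ := hf
  refine ⟨fun k => F k * (2 * (z k + 1) ^ p) ^ c, p * c, fun k n => (h _ _).trans ?_⟩
  have h1 : (z k * (n + 1)) ^ p ≤ ((z k + 1) * (n + 1)) ^ p :=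
    Nat.pow_le_pow_left (Nat.mul_le_mul_right _ (Nat.le_succ _)) p
  have h2 : 1 ≤ ((z k + 1) * (n + 1)) ^ p := Nat.one_le_pow _ _ (by positivity)
  have : (z k * (n + 1)) ^ p + 1 ≤ 2 * (z k + 1) ^ p * (n + 1) ^ p := by
    rw [mul_assoc, ← mul_pow]
    omega
  calc F k * ((z k * (n + 1)) ^ p + 1) ^ c ≤ F k * (2 * (z k + 1) ^ p * (n + 1) ^ p) ^ c :=
        Nat.mul_le_mul_left _ (Nat.pow_le_pow_left this c)
    _ = _ := by rw [mul_pow, pow_mul]; ring

section code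

variable {α β γ : Type} [Enc α] [Enc β] [Enc γ]

/-- The bit string coding `a`. -/
def code (a : α) : List Bool := (Enc.tr a).post

/-- Decoding. -/
def decode [Dec α] (y : List Bool) : α := Dec.dec (parse y)

theorem decode_code [Dec α] (a : α) : decode (code a) = a := by
  simp only [decode, code, parse, parse_post, List.headD_cons, Dec.dec_tr]

theorem code_length (a : α) : (code a).length ≤ 2 * size a := post_length (Enc.tr a)

theorem PT.decode [Dec β] {f : α → List Bool} (hf : PT f) : PT fun a => (decode (f a) : β) :=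
  Dec.pt.comp (PT.parse.comp hf)

end code

theorem pow_le_two_pow (a D : ℕ) : ∃ x₀ : ℕ, ∀ x ≥ x₀, (a * (x + 1)) ^ D ≤ 2 ^ x := by
  have h := tendsto_pow_const_div_const_pow_of_one_lt D (r := (2 : ℝ)) (by norm_num)
  have h2 : ∀ᶠ n : ℕ in Filter.atTop, ((n : ℝ) ^ D / 2 ^ n) < 1 / (2 * ((a : ℝ) + 1) ^ D) :=
    h.eventually (gt_mem_nhds (by positivity))
  obtain ⟨x₀, hx₀⟩ := Filter.eventually_atTop.1 h2
  refine ⟨x₀, fun x hx => ?_⟩
  have h3 := hx₀ (x + 1) (by omega)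
  rw [div_lt_div_iff₀ (by positivity) (by positivity)] at h3
  have h4 : ((a : ℝ) * (x + 1)) ^ D ≤ 2 ^ x := by
    have h5 : ((a : ℝ) * (x + 1)) ^ D ≤ ((a : ℝ) + 1) ^ D * (x + 1) ^ D := by
      rw [← mul_pow]
      exact pow_le_pow_left₀ (by positivity) (by nlinarith [Nat.cast_nonneg (α := ℝ) x]) D
    have h6 : (2 : ℝ) ^ (x + 1) = 2 * 2 ^ x := by ring
    push_cast at h3
    nlinarith
  exact_mod_cast h4

theorem log_ge {x₀ T : ℕ} (h : 2 ^ x₀ ≤ T) : x₀ ≤ Nat.log 2 T := by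
  calc x₀ = Nat.log 2 (2 ^ x₀) := (Nat.log_pow (by norm_num) _).symm
    _ ≤ _ := Nat.log_mono_right h

/-- The number of variables of a formula of size at most `2 ^ E` with parameter at most `g`. -/
theorem vars_le {φ : Cnf} {g E : ℕ} (h : par φ ≤ g) (hE : size φ ≤ 2 ^ E) : φ.vars.length ≤ g * E := by
  have h1 : (2 : ℝ) ≤ (size φ : ℝ) := by
    have : 2 ≤ size φ := by
      rcases φ with _ | ⟨C, φ⟩
      · exact le_rfl
      · rw [size_cons]
        have : ∀ l : Cnf, 2 ≤ size l := fun l => by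
          induction l with
          | nil => exact le_rfl
          | cons C l ih => rw [size_cons]; omega
        have := this φ
        omega
    exact_mod_cast this
  have h2 : 0 < Real.logb 2 (size φ) := Real.logb_pos (by norm_num) (by linarith)
  have h3 : (φ.vars.length : ℝ) / Real.logb 2 (size φ) ≤ g := (Nat.le_ceil _).trans (by exact_mod_cast h)
  rw [div_le_iff₀ h2] at h3
  have h4 : Real.logb 2 (size φ) ≤ E := by
    rw [Real.logb_le_iff_le_rpow (by norm_num) (by linarith), Real.rpow_natCast]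
    exact_mod_cast hE
  have h5 : (φ.vars.length : ℝ) ≤ g * E := h3.trans (mul_le_mul_of_nonneg_left h4 (by positivity))
  exact_mod_cast h5

/-- Logarithms are small. -/
theorem log_small (C r : ℝ) (hr : 0 < r) : ∀ᶠ z : ℕ in Filter.atTop,
    C * (Real.log z / Real.log 2 + 1) ≤ (z : ℝ) ^ r := by
  have h1 : (fun x : ℝ => C * (Real.log x / Real.log 2 + 1)) =o[Filter.atTop] fun x : ℝ => x ^ r := by
    refine Asymptotics.IsLittleO.const_mul_left ?_ _
    refine Asymptotics.IsLittleO.add ?_ ?_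
    · have := (isLittleO_log_rpow_atTop hr).const_mul_left (Real.log 2)⁻¹
      simpa only [div_eq_inv_mul] using this
    · exact Asymptotics.isLittleO_const_left.2 (Or.inr
        (Filter.Tendsto.comp Filter.tendsto_abs_atTop_atTop (tendsto_rpow_atTop hr)))
  have h2 := (h1.bound (show (0 : ℝ) < 1 by norm_num))
  have h3 := tendsto_natCast_atTop_atTop (R := ℝ) |>.eventually h2
  filter_upwards [h3] with z hz
  rw [one_mul] at hz
  refine (le_abs_self _).trans (hz.trans ?_)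
  rw [Real.norm_of_nonneg (by positivity)]

/-- The choice of the number of graphs, `z ^ (3 s)`. -/
theorem exists_z (t B s : ℕ) (v w : ℕ → ℕ)
    (h : ∀ δ : ℝ, 0 < δ → ∀ᶠ N : ℕ in Filter.atTop, ((v N : ℝ) + 1) ^ (w N) ≤ (N : ℝ) ^ δ) :
    ∃ z₀ : ℕ, 1 ≤ z₀ ∧ ∀ z ≥ z₀, ∀ N, z ≤ N →
      N ≤ B * (z ^ 2 * (z ^ (3 * s) * (Nat.log 2 (z ^ (3 * s)) + 1))) →
      t * B * (Nat.log 2 (z ^ (3 * s)) + 1) * (((2 * v N + 1) ^ w N) ^ 2 + 2) ≤ z := by
  obtain ⟨δ, hδ⟩ : ∃ δ : ℝ, δ = 1 / (8 * (3 * s + 4 : ℕ)) := ⟨_, rfl⟩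
  have hδ0 : 0 < δ := by rw [hδ]; positivity
  obtain ⟨N₁, hN₁⟩ := Filter.eventually_atTop.1 (h δ hδ0)
  -- the logarithm is small
  have hlog := log_small (3 * t * B * (3 * s + 1)) (1 / 2) (by norm_num)
  obtain ⟨z₁, hz₁⟩ := Filter.eventually_atTop.1 hlog
  refine ⟨N₁ + z₁ + B * (3 * s + 1) + 1, by omega, fun z hz N hzN hN => ?_⟩
  have hz0 : z ≠ 0 := by omega
  have hzR : (1 : ℝ) ≤ z := by exact_mod_cast (show 1 ≤ z by omega)
  set X := Nat.log 2 z with hX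
  have hX1 : z < 2 ^ (X + 1) := Nat.lt_pow_succ_log_self (by norm_num) z
  have hT1 : z ^ (3 * s) ≤ 2 ^ ((X + 1) * (3 * s)) := by
    rw [pow_mul 2]
    exact Nat.pow_le_pow_left hX1.le _
  have hT2 : Nat.log 2 (z ^ (3 * s)) ≤ (X + 1) * (3 * s) :=
    (Nat.log_mono_right hT1).trans (Nat.log_pow (by norm_num) _).le
  have hL : Nat.log 2 (z ^ (3 * s)) + 1 ≤ (3 * s + 1) * (X + 1) := by nlinarith
  have hXz : X + 1 ≤ z := Nat.log_lt_self 2 hz0
  -- the bound for `N`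
  have hN2 : N ≤ z ^ (3 * s + 4) := by
    calc N ≤ B * (z ^ 2 * (z ^ (3 * s) * (Nat.log 2 (z ^ (3 * s)) + 1))) := hN
      _ ≤ B * (z ^ 2 * (z ^ (3 * s) * ((3 * s + 1) * z))) := by
          refine Nat.mul_le_mul_left _ (Nat.mul_le_mul_left _ (Nat.mul_le_mul_left _ (hL.trans ?_)))
          exact Nat.mul_le_mul_left _ hXz
      _ = (B * (3 * s + 1)) * z ^ (3 * s + 3) := by ring
      _ ≤ z * z ^ (3 * s + 3) := Nat.mul_le_mul_right _ (by omega)
      _ = _ := by ring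
  have hv1 := hN₁ N (by omega)
  have hv2 : (((2 * v N + 1) ^ w N : ℕ) : ℝ) ^ 2 ≤ (z : ℝ) ^ (1 / 2 : ℝ) := by
    have h1 : (((2 * v N + 1) ^ w N : ℕ) : ℝ) ≤ (((v N : ℝ) + 1) ^ w N) ^ 2 := by
      have e : (((v N : ℝ) + 1) ^ w N) ^ 2 = (((v N : ℝ) + 1) ^ 2) ^ w N := by
        rw [← pow_mul, ← pow_mul, mul_comm]
      have e2 : 2 * (v N : ℝ) + 1 ≤ ((v N : ℝ) + 1) ^ 2 := by nlinarith [Nat.cast_nonneg (α := ℝ) (v N)]
      push_cast
      rw [e]
      exact pow_le_pow_left₀ (by positivity) e2 _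
    have h2 : (((2 * v N + 1) ^ w N : ℕ) : ℝ) ≤ ((N : ℝ) ^ δ) ^ 2 :=
      h1.trans (pow_le_pow_left₀ (by positivity) hv1 2)
    calc (((2 * v N + 1) ^ w N : ℕ) : ℝ) ^ 2 ≤ (((N : ℝ) ^ δ) ^ 2) ^ 2 :=
          pow_le_pow_left₀ (by positivity) h2 2
      _ = (N : ℝ) ^ (4 * δ) := by
          rw [← pow_mul, ← Real.rpow_natCast, ← Real.rpow_mul (by positivity)]
          norm_num
          ring_nf
      _ ≤ ((z : ℝ) ^ (3 * s + 4)) ^ (4 * δ) := by
          refine Real.rpow_le_rpow (by positivity) ?_ (by positivity)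
          exact_mod_cast hN2
      _ = (z : ℝ) ^ (1 / 2 : ℝ) := by
          rw [← Real.rpow_natCast, ← Real.rpow_mul (by positivity), hδ]
          congr 1
          push_cast
          field_simp
          norm_num
  have hlogz : (X : ℝ) ≤ Real.log z / Real.log 2 := by
    have h1 : (2 : ℝ) ^ X ≤ z := by exact_mod_cast Nat.pow_log_le_self 2 hz0
    rw [le_div_iff₀ (Real.log_pos (by norm_num)), ← Real.log_pow]
    exact Real.log_le_log (by positivity) h1
  have h4 := hz₁ z (by omega)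
  have h5 : (1 : ℝ) ≤ (z : ℝ) ^ (1 / 2 : ℝ) := Real.one_le_rpow hzR (by norm_num)
  have h6 : (((t * B * (Nat.log 2 (z ^ (3 * s)) + 1) * (((2 * v N + 1) ^ w N) ^ 2 + 2) : ℕ)) : ℝ) ≤ z := by
    have h7 : ((Nat.log 2 (z ^ (3 * s)) + 1 : ℕ) : ℝ) ≤ (3 * s + 1) * (Real.log z / Real.log 2 + 1) := by
      have : ((Nat.log 2 (z ^ (3 * s)) + 1 : ℕ) : ℝ) ≤ (3 * s + 1) * (X + 1) := by exact_mod_cast hL
      refine this.trans (mul_le_mul_of_nonneg_left (by linarith) (by positivity))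
    have h8 : ((((2 * v N + 1) ^ w N) ^ 2 + 2 : ℕ) : ℝ) ≤ 3 * (z : ℝ) ^ (1 / 2 : ℝ) := by
      push_cast at hv2 ⊢
      linarith
    calc (((t * B * (Nat.log 2 (z ^ (3 * s)) + 1) * (((2 * v N + 1) ^ w N) ^ 2 + 2) : ℕ)) : ℝ)
        = (t * B) * ((Nat.log 2 (z ^ (3 * s)) + 1 : ℕ) : ℝ) * ((((2 * v N + 1) ^ w N) ^ 2 + 2 : ℕ) : ℝ) := by
          push_cast; ring
      _ ≤ (t * B) * ((3 * s + 1) * (Real.log z / Real.log 2 + 1)) * (3 * (z : ℝ) ^ (1 / 2 : ℝ)) := by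
          have h9 : (0 : ℝ) ≤ Real.log z / Real.log 2 + 1 := by
            have : (0 : ℝ) ≤ X := Nat.cast_nonneg X
            linarith
          refine mul_le_mul (mul_le_mul_of_nonneg_left h7 (by positivity)) h8 (by positivity) (by positivity)
      _ = ((3 * t * B * (3 * s + 1) : ℝ) * (Real.log z / Real.log 2 + 1)) * (z : ℝ) ^ (1 / 2 : ℝ) := by ring
      _ ≤ (z : ℝ) ^ (1 / 2 : ℝ) * (z : ℝ) ^ (1 / 2 : ℝ) := mul_le_mul_of_nonneg_right h4 (by positivity)
      _ = z := by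
          rw [← Real.rpow_add (by linarith)]
          norm_num
  exact_mod_cast h6

end Pool.Agent.Q9h3.MC
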