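import Mathlib

/-!
The covering argument of Fortnow and Santhanam: if the `T`-tuples of elements of `Z` are mapped to at most
`2 ^ T` values, then few values suffice for every element of `Z` to be a component of a tuple with such a value.
-/

namespace Pool.Agent.Q9h3.MC

open Finset

theorem greedy {X Y : Type} {T : ℕ} (hT : 0 < T) (f : (Fin T → X) → Y) (W : Finset Y) (hW : W.card ≤ 2 ^ T) :
    ∀ Z : Finset X, (∀ L : Fin T → X, (∀ i, L i ∈ Z) → f L ∈ W) →
      ∃ S : Finset Y, S.card ≤ Nat.log 2 Z.card + 1 ∧ (∀ y ∈ S, ∃ L, (∀ i, L i ∈ Z) ∧ f L = y) ∧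
        ∀ z ∈ Z, ∃ L : Fin T → X, (∀ i, L i ∈ Z) ∧ (∃ i, L i = z) ∧ f L ∈ S := by
  classical
  intro Z
  induction Z using Finset.strongInduction with
  | H Z ih =>
    intro hf
    rcases Z.eq_empty_or_nonempty with rfl | hZ
    · exact ⟨∅, by simp, by simp, by simp⟩
    -- a popular value
    let P : Finset (Fin T → X) := Fintype.piFinset fun _ => Z
    have hP : P.card = Z.card ^ T := by simp [P]
    have hPm : ∀ L, L ∈ P ↔ ∀ i, L i ∈ Z := fun L => Fintype.mem_piFinset
    obtain ⟨y, hyW, hy⟩ : ∃ y ∈ W, P.card ≤ 2 ^ T * (P.filter fun L => f L = y).card := by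
      by_contra hcon
      push Not at hcon
      have h1 : P.card = ∑ y ∈ W, (P.filter fun L => f L = y).card :=
        Finset.card_eq_sum_card_fiberwise fun L hL => hf L ((hPm L).1 hL)
      have h2 : 0 < P.card := by rw [hP]; exact Nat.pow_pos hZ.card_pos
      have hWne : W.Nonempty := by
        obtain ⟨z, hz⟩ := hZ
        exact ⟨_, hf (fun _ => z) fun _ => hz⟩
      have h3 : ∑ y ∈ W, 2 ^ T * (P.filter fun L => f L = y).card < ∑ _y ∈ W, P.card :=
        Finset.sum_lt_sum_of_nonempty hWne hcon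
      rw [← Finset.mul_sum, ← h1, Finset.sum_const, smul_eq_mul] at h3
      exact absurd (Nat.mul_le_mul_right P.card hW) (not_le.2 h3)
    -- the elements covered by `y`
    let C : Finset X := Z.filter fun z => ∃ L : Fin T → X, (∀ i, L i ∈ Z) ∧ (∃ i, L i = z) ∧ f L = y
    have hC : (P.filter fun L => f L = y).card ≤ C.card ^ T := by
      have : (P.filter fun L => f L = y) ⊆ Fintype.piFinset fun _ => C := fun L hL => by
        rw [Finset.mem_filter, hPm] at hL
        exact Fintype.mem_piFinset.2 fun i => Finset.mem_filter.2 ⟨hL.1 i, L, hL.1, ⟨i, rfl⟩, hL.2⟩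
      simpa using Finset.card_le_card this
    have hC2 : Z.card ≤ 2 * C.card := by
      have : Z.card ^ T ≤ (2 * C.card) ^ T := by
        rw [← hP, mul_pow]
        exact hy.trans (Nat.mul_le_mul_left _ hC)
      exact (Nat.pow_le_pow_iff_left hT.ne').1 this
    have hCZ : C ⊆ Z := Finset.filter_subset _ _
    have hCne : 0 < C.card := by have := hZ.card_pos; omega
    have hsub : Z \ C ⊂ Z := Finset.sdiff_ssubset hCZ (Finset.card_pos.1 hCne)
    obtain ⟨S, h1, h2, h3⟩ := ih (Z \ C) hsub fun L hL => hf L fun i => (Finset.mem_sdiff.1 (hL i)).1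
    have hcard : (Z \ C).card = Z.card - C.card := Finset.card_sdiff_of_subset hCZ
    rcases (Z \ C).eq_empty_or_nonempty with hE | hE
    · -- everything is covered by `y`
      refine ⟨{y}, by simp, fun y' hy' => ?_, fun z hz => ?_⟩
      · rw [Finset.mem_singleton.1 hy']
        obtain ⟨z, hz⟩ := Finset.card_pos.1 hCne
        obtain ⟨-, L, hL, -, e⟩ := Finset.mem_filter.1 hz
        exact ⟨L, hL, e⟩
      · have : z ∈ C := by
          by_contra h
          have : z ∈ Z \ C := Finset.mem_sdiff.2 ⟨hz, h⟩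
          rw [hE] at this
          simp at this
        obtain ⟨-, L, hL, hi, e⟩ := Finset.mem_filter.1 this
        exact ⟨L, hL, hi, by simp [e]⟩
    · refine ⟨insert y S, ?_, fun y' hy' => ?_, fun z hz => ?_⟩
      · have h4 : Nat.log 2 (Z \ C).card + 1 ≤ Nat.log 2 Z.card := by
          have h5 : (Z \ C).card * 2 ≤ Z.card := by omega
          rw [← Nat.log_mul_base (by norm_num) (Finset.card_pos.2 hE).ne']
          exact Nat.log_mono_right h5
        have := Finset.card_insert_le y S
        omega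
      · rcases Finset.mem_insert.1 hy' with rfl | h
        · obtain ⟨z, hz⟩ := Finset.card_pos.1 hCne
          obtain ⟨-, L, hL, -, e⟩ := Finset.mem_filter.1 hz
          exact ⟨L, hL, e⟩
        · obtain ⟨L, hL, e⟩ := h2 y' h
          exact ⟨L, fun i => (Finset.mem_sdiff.1 (hL i)).1, e⟩
      · by_cases h : z ∈ C
        · obtain ⟨-, L, hL, hi, e⟩ := Finset.mem_filter.1 h
          exact ⟨L, hL, hi, by simp [e]⟩
        · obtain ⟨L, hL, hi, e⟩ := h3 z (Finset.mem_sdiff.2 ⟨hz, h⟩)
          exact ⟨L, fun i => (Finset.mem_sdiff.1 (hL i)).1, hi, Finset.mem_insert_of_mem e⟩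

end Pool.Agent.Q9h3.MC
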