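import Pool.Agent.Q9h3.MC.Defs

/-!
Disjoint unions of graphs and cliques.
-/

namespace Pool.Agent.Q9h3.MC

open Pool.Agent.Lib.CX

/-- `n` vertices with adjacency `A` contain a clique of size `k`. -/
def HasCl (n k : ℕ) (A : ℕ → ℕ → Prop) : Prop :=
  ∃ S : Finset ℕ, k ≤ S.card ∧ (∀ x ∈ S, x < n) ∧ ∀ x ∈ S, ∀ y ∈ S, x ≠ y → A x y

theorem HasCl.mono {n m k : ℕ} {A B : ℕ → ℕ → Prop} (hnm : n ≤ m) (hAB : ∀ x y, A x y → B x y)
    (h : HasCl n k A) : HasCl m k B := by
  obtain ⟨S, h1, h2, h3⟩ := h
  exact ⟨S, h1, fun x hx => (h2 x hx).trans_le hnm, fun x hx y hy e => hAB _ _ (h3 x hx y hy e)⟩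

theorem cliqueP_iff (G : Gr) (k : ℕ) : CliqueP (G, k) ↔ HasCl G.n k fun x y => G.adjB x y = true := by
  constructor
  · rintro ⟨s, h1, h2⟩
    refine ⟨s.image Fin.val, by rwa [Finset.card_image_of_injective _ Fin.val_injective], ?_, ?_⟩
    · simp only [Finset.forall_mem_image]; exact fun x _ => x.2
    · simp only [Finset.forall_mem_image]
      exact fun x hx y hy e => (G.adjB_iff x y).2 (h1 hx hy fun h => e (congrArg Fin.val h))
  · rintro ⟨S, h1, h2, h3⟩
    refine ⟨Finset.univ.filter fun i => i.1 ∈ S, fun u hu v hv e => ?_, h1.trans ?_⟩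
    · simp at hu hv
      exact (G.adjB_iff u v).1 (h3 _ hu _ hv fun h => e (Fin.ext h))
    · exact Finset.card_le_card_of_surjOn Fin.val fun x hx =>
        ⟨⟨x, h2 x hx⟩, by simpa using hx, rfl⟩

/-- The canonical list of the edges of `G` between the vertices below `n`. -/
def nE (n : List Unit) (G : Gr) : List (ℕ × ℕ) :=
  (List.range n.length ×ˢ List.range n.length).filter fun e => G.adjB e.1 e.2

@[fun_prop] theorem PT.nE {α : Type} [Enc α] {n : α → List Unit} {G : α → Gr} (hn : PT n) (hG : PT G) :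
    PT (fun a => nE (n a) (G a)) := by
  unfold MC.nE; fun_prop

theorem nE_lt (n : List Unit) (G : Gr) : ∀ e ∈ nE n G, e.1 < n.length ∧ e.2 < n.length := by
  intro e he
  rw [nE, List.mem_filter, List.mem_product, List.mem_range, List.mem_range] at he
  exact he.1

theorem adjB_symm (G : Gr) (u v : ℕ) : G.adjB u v = G.adjB v u := by
  unfold Gr.adjB
  rw [decide_eq_decide]
  tauto

theorem nE_adjB (n : List Unit) (G : Gr) (h : G.n ≤ n.length) (u v : ℕ) :
    Gr.adjB (n, nE n G) u v = G.adjB u v := by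
  have key : ∀ u v, (u, v) ∈ nE n G ↔ G.adjB u v = true := fun u v => by
    rw [nE, List.mem_filter, List.mem_product, List.mem_range, List.mem_range]
    simp only
    refine ⟨fun h => h.2, fun h' => ⟨?_, h'⟩⟩
    unfold Gr.adjB at h'
    simp only [decide_eq_true_eq] at h'
    exact ⟨h'.1.trans_le h, h'.2.1.trans_le h⟩
  rw [Bool.eq_iff_iff]
  have h1 : Gr.adjB (n, nE n G) u v = true ↔ u < n.length ∧ v < n.length ∧ u ≠ v ∧
      (G.adjB u v = true ∨ G.adjB v u = true) := by
    rw [← key, ← key]
    unfold Gr.adjB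
    simp only [decide_eq_true_eq]
  rw [h1, adjB_symm G v u, or_self]
  refine ⟨fun h => h.2.2.2, fun h' => ?_⟩
  refine ⟨?_, ?_, ?_, h'⟩ <;>
    · unfold Gr.adjB at h'
      simp only [decide_eq_true_eq] at h'
      first | exact h'.1.trans_le h | exact h'.2.1.trans_le h | exact h'.2.2.1

theorem nE_clique (n : List Unit) (G : Gr) (h : G.n ≤ n.length) {k : ℕ} (hk : 2 ≤ k) :
    CliqueP ((n, nE n G), k) ↔ CliqueP (G, k) := by
  rw [cliqueP_iff, cliqueP_iff]
  simp only [nE_adjB n G h]
  constructor
  · rintro ⟨S, h1, h2, h3⟩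
    refine ⟨S, h1, fun x hx => ?_, h3⟩
    obtain ⟨y, hy, e⟩ := Finset.exists_mem_ne (s := S) (by omega) x
    have := h3 x hx y hy e.symm
    unfold Gr.adjB at this
    simp only [decide_eq_true_eq] at this
    exact this.1
  · exact HasCl.mono h fun _ _ h => h

/-- The disjoint union of the graphs on `n` vertices with the edge lists in `L`. -/
def U (n : List Unit) (L : List (List (ℕ × ℕ))) : Gr :=
  (L.flatMap fun _ => n,
    L.zipIdx.flatMap fun p => p.1.map fun e => (e.1 + p.2 * n.length, e.2 + p.2 * n.length))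

@[fun_prop] theorem PT.U {α : Type} [Enc α] {n : α → List Unit} {L : α → List (List (ℕ × ℕ))} (hn : PT n)
    (hL : PT L) : PT (fun a => U (n a) (L a)) := by
  unfold MC.U; fun_prop

theorem U_n (n : List Unit) (L : List (List (ℕ × ℕ))) : (U n L).n = L.length * n.length := by
  simp [U, Gr.n, List.length_flatMap]

theorem mem_U {n : List Unit} {L : List (List (ℕ × ℕ))} (hL : ∀ es ∈ L, ∀ e ∈ es, e.1 < n.length ∧ e.2 < n.length)
    (u v : ℕ) : (u, v) ∈ (U n L).2 ↔
      u / n.length = v / n.length ∧ ∃ es, L[u / n.length]? = some es ∧ (u % n.length, v % n.length) ∈ es := by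
  simp only [U, List.mem_flatMap, List.mem_map, Prod.mk.injEq, Prod.exists]
  constructor
  · rintro ⟨es, i, hi, a, b, hab, rfl, rfl⟩
    rw [List.mem_zipIdx_iff_getElem?] at hi
    obtain ⟨h1, h2⟩ := hL es (List.mem_of_getElem? hi) _ hab
    simp only at h1 h2 hi
    have hn : 0 < n.length := by omega
    have e1 : (a + i * n.length) / n.length = i := by
      rw [Nat.add_mul_div_right _ _ hn, Nat.div_eq_of_lt h1, zero_add]
    have e2 : (b + i * n.length) / n.length = i := by
      rw [Nat.add_mul_div_right _ _ hn, Nat.div_eq_of_lt h2, zero_add]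
    rw [e1, e2]
    refine ⟨rfl, es, hi, ?_⟩
    rwa [Nat.add_mul_mod_self_right, Nat.add_mul_mod_self_right, Nat.mod_eq_of_lt h1, Nat.mod_eq_of_lt h2]
  · rintro ⟨h1, es, h2, h3⟩
    refine ⟨es, u / n.length, by rw [List.mem_zipIdx_iff_getElem?]; exact h2, _, _, h3, ?_, ?_⟩
    · rw [mul_comm, Nat.mod_add_div]
    · rw [h1, mul_comm, Nat.mod_add_div]

theorem U_adjB {n : List Unit} {L : List (List (ℕ × ℕ))}
    (hL : ∀ es ∈ L, ∀ e ∈ es, e.1 < n.length ∧ e.2 < n.length) (u v : ℕ) :
    (U n L).adjB u v = true ↔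
      u / n.length = v / n.length ∧
        ∃ es, L[u / n.length]? = some es ∧ Gr.adjB (n, es) (u % n.length) (v % n.length) = true := by
  unfold Gr.adjB
  simp only [decide_eq_true_eq, mem_U hL, U_n]
  constructor
  · rintro ⟨h1, h2, h3, h4⟩
    have hn : 0 < n.length := Nat.pos_of_ne_zero fun h => by simp [h] at h1
    have h5 : u / n.length = v / n.length := h4.elim (fun h => h.1) fun h => h.1.symm
    have h6 : u % n.length ≠ v % n.length := fun e => h3 (by
      rw [← Nat.div_add_mod u n.length, ← Nat.div_add_mod v n.length, h5, e])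
    refine ⟨h5, ?_⟩
    rcases h4 with ⟨-, es, h7, h8⟩ | ⟨-, es, h7, h8⟩
    · exact ⟨es, h7, Nat.mod_lt _ hn, Nat.mod_lt _ hn, h6, Or.inl h8⟩
    · exact ⟨es, h5 ▸ h7, Nat.mod_lt _ hn, Nat.mod_lt _ hn, h6, Or.inr h8⟩
  · rintro ⟨h1, es, h2, h3, h4, h5, h6⟩
    have hn : 0 < n.length := by change _ < n.length at h3; omega
    have h7 : u / n.length < L.length := (List.getElem?_eq_some_iff.1 h2).1
    have h8 : v / n.length < L.length := h1 ▸ h7
    refine ⟨(Nat.div_lt_iff_lt_mul hn).1 h7, (Nat.div_lt_iff_lt_mul hn).1 h8, fun e => h5 (by rw [e]), ?_⟩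
    rcases h6 with h6 | h6
    · exact Or.inl ⟨h1, es, h2, h6⟩
    · exact Or.inr ⟨h1.symm, es, h1 ▸ h2, h6⟩

theorem U_clique {n : List Unit} {L : List (List (ℕ × ℕ))}
    (hL : ∀ es ∈ L, ∀ e ∈ es, e.1 < n.length ∧ e.2 < n.length) {k : ℕ} (hk : 2 ≤ k) :
    CliqueP (U n L, k) ↔ ∃ es ∈ L, CliqueP ((n, es), k) := by
  simp only [cliqueP_iff, U_n]
  constructor
  · rintro ⟨S, h1, h2, h3⟩
    obtain ⟨x, hx⟩ : S.Nonempty := Finset.card_pos.1 (by omega)
    have hn : 0 < n.length := Nat.pos_of_ne_zero fun h => by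
      have := h2 x hx
      simp [h] at this
    have h7 : x / n.length < L.length := (Nat.div_lt_iff_lt_mul hn).2 (h2 x hx)
    refine ⟨L[x / n.length], List.getElem_mem _, S.image (· % n.length), ?_, ?_, ?_⟩
    · rw [Finset.card_image_of_injOn]
      · exact h1
      · intro y hy z hz e
        have key : ∀ y ∈ S, y / n.length = x / n.length := fun y hy => by
          by_cases hxy : y = x
          · rw [hxy]
          · exact ((U_adjB hL y x).1 (h3 y hy x hx hxy)).1
        simp only at e
        rw [← Nat.div_add_mod y n.length, ← Nat.div_add_mod z n.length, key y hy, key z hz, e]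
    · simp only [Finset.forall_mem_image]
      exact fun y _ => Nat.mod_lt _ hn
    · simp only [Finset.forall_mem_image]
      intro y hy z hz e
      have hyz : y ≠ z := fun h => e (by rw [h])
      have key : y / n.length = x / n.length := by
        by_cases hxy : y = x
        · rw [hxy]
        · exact ((U_adjB hL y x).1 (h3 y hy x hx hxy)).1
      obtain ⟨-, es, h4, h5⟩ := (U_adjB hL y z).1 (h3 y hy z hz hyz)
      rw [key, List.getElem?_eq_getElem h7, Option.some.injEq] at h4
      rwa [h4]
  · rintro ⟨es, hes, S, h1, h2, h3⟩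
    obtain ⟨i, hi, rfl⟩ := List.getElem_of_mem hes
    refine ⟨S.image (· + i * n.length), ?_, ?_, ?_⟩
    · rwa [Finset.card_image_of_injective _ (add_left_injective _)]
    · simp only [Finset.forall_mem_image]
      intro x hx
      have := h2 x hx
      change x < n.length at this
      calc x + i * n.length < n.length + i * n.length := by omega
        _ = (i + 1) * n.length := by ring
        _ ≤ L.length * n.length := Nat.mul_le_mul_right _ hi
    · simp only [Finset.forall_mem_image]
      intro x hx y hy e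
      have hxy : x ≠ y := fun h => e (by rw [h])
      have h4 : x < n.length := h2 x hx
      have h5 : y < n.length := h2 y hy
      have hn : 0 < n.length := by omega
      have e1 : (x + i * n.length) / n.length = i := by
        rw [Nat.add_mul_div_right _ _ hn, Nat.div_eq_of_lt h4, zero_add]
      have e2 : (y + i * n.length) / n.length = i := by
        rw [Nat.add_mul_div_right _ _ hn, Nat.div_eq_of_lt h5, zero_add]
      rw [U_adjB hL, e1, e2]
      refine ⟨rfl, L[i], List.getElem?_eq_getElem hi, ?_⟩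
      rw [Nat.add_mul_mod_self_right, Nat.add_mul_mod_self_right, Nat.mod_eq_of_lt h4, Nat.mod_eq_of_lt h5]
      exact h3 x hx y hy hxy

/-- The edge list `es` is the canonical list of the edges of a graph on `n` vertices. -/
def Can (n : List Unit) (es : List (ℕ × ℕ)) : Prop := nE n (n, es) = es

theorem can_nE (n : List Unit) (G : Gr) (h : G.n ≤ n.length) : Can n (nE n G) := by
  unfold Can
  conv_lhs => rw [nE]
  conv_rhs => rw [nE]
  simp only [nE_adjB n G h]

theorem can_nE' (n : List Unit) (es : List (ℕ × ℕ)) : Can n (nE n (n, es)) := can_nE n (n, es) le_rfl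

theorem Can.lt {n : List Unit} {es : List (ℕ × ℕ)} (h : Can n es) : ∀ e ∈ es, e.1 < n.length ∧ e.2 < n.length := by
  rw [← h]
  exact nE_lt _ _

theorem Can.sub {n : List Unit} {es : List (ℕ × ℕ)} (h : Can n es) :
    es.Sublist (List.range n.length ×ˢ List.range n.length) := by
  rw [← h]
  exact List.filter_sublist

theorem size_units (n : List Unit) : size n = 3 * n.length + 2 := by
  induction n with
  | nil => rfl
  | cons a n ih => rw [size_cons, ih, size_unit, List.length_cons]; ring

/-- The size of a union is almost linear in the number of graphs. -/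
theorem size_U {n : List Unit} {L : List (List (ℕ × ℕ))} {k T : ℕ} (hT : 1 ≤ T) (hn : n.length ≤ T)
    (hL : L.length ≤ T) (hc : ∀ es ∈ L, Can n es) :
    size (U n L, k) ≤ (size k + 40) * ((n.length + 1) ^ 2 * (T * (Nat.log 2 T + 1))) := by
  have h1 : size (U n L).1 ≤ 3 * (T * n.length) + 2 := by
    rw [size_units]
    have := U_n n L
    rw [Gr.n] at this
    rw [this]
    have := Nat.mul_le_mul_right n.length hL
    omega
  have h2 : ∀ e ∈ (U n L).2, size e ≤ 12 * (Nat.log 2 T + 1) + 5 := by
    rintro ⟨u, v⟩ he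
    have key : ∀ u v : ℕ, (u, v) ∈ (U n L).2 → size u ≤ 6 * (Nat.log 2 T + 1) + 2 := fun u v he => by
      obtain ⟨h1, es, h3, h4⟩ := (mem_U (fun es hes => (hc es hes).lt) u v).1 he
      have h5 : u / n.length < L.length := (List.getElem?_eq_some_iff.1 h3).1
      have hn' : 0 < n.length := Nat.pos_of_ne_zero fun h => by
        have := ((hc es (List.mem_of_getElem? h3)).lt _ h4).1
        rw [h] at this
        omega
      have h6 : u < L.length * n.length := (Nat.div_lt_iff_lt_mul hn').1 h5
      have h7 : u < 2 ^ (2 * (Nat.log 2 T + 1)) := by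
        have h8 : T < 2 ^ (Nat.log 2 T + 1) := Nat.lt_pow_succ_log_self (by norm_num) T
        calc u < L.length * n.length := h6
          _ ≤ 2 ^ (Nat.log 2 T + 1) * 2 ^ (Nat.log 2 T + 1) :=
              Nat.mul_le_mul (hL.trans h8.le) (hn.trans h8.le)
          _ = _ := by rw [← pow_add, two_mul]
      have := size_nat_of_lt h7
      omega
    have h3 := key u v he
    have h4 : (v, u) ∈ (U n L).2 := by
      obtain ⟨h1, es, h3, h4⟩ := (mem_U (fun es hes => (hc es hes).lt) u v).1 he
      rw [mem_U (fun es hes => (hc es hes).lt)]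
      refine ⟨h1.symm, es, h1 ▸ h3, ?_⟩
      have hces := hc es (List.mem_of_getElem? h3)
      have hlt := hces.lt _ h4
      have h5 : Gr.adjB (n, es) (u % n.length) (v % n.length) = true := by
        rw [← hces, nE, List.mem_filter] at h4
        exact h4.2
      rw [← hces, nE, List.mem_filter]
      refine ⟨List.mem_product.2 ⟨List.mem_range.2 hlt.2, List.mem_range.2 hlt.1⟩, ?_⟩
      simp only
      rw [adjB_symm]
      exact h5
    have h5 := key v u h4
    rw [size_pair]
    omega
  have h3 : (U n L).2.length ≤ T * (n.length * n.length) := by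
    have h4 : ∀ l ∈ (L.zipIdx.map fun p => (p.1.map fun e : ℕ × ℕ =>
        (e.1 + p.2 * n.length, e.2 + p.2 * n.length)).length), l ≤ n.length * n.length := by
      intro l hl
      obtain ⟨⟨es, i⟩, hp, rfl⟩ := List.mem_map.1 hl
      rw [List.mem_zipIdx_iff_getElem?] at hp
      have h5 := (hc es (List.mem_of_getElem? hp)).sub.length_le
      rw [List.length_product, List.length_range] at h5
      simpa using h5
    have h6 := List.sum_le_card_nsmul _ _ h4
    simp only [U, List.length_flatMap]
    rw [List.length_map, List.length_zipIdx, smul_eq_mul] at h6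
    exact h6.trans (Nat.mul_le_mul_right _ hL)
  have h4 := (size_list_le h2).trans (Nat.add_le_add_right (Nat.mul_le_mul_right _ h3) 2)
  rw [size_pair]
  have h5 : size (U n L) = size (U n L).1 + size (U n L).2 + 1 := size_pair _ _
  rw [h5]
  generalize hx : Nat.log 2 T + 1 = x at *
  have hx1 : 1 ≤ x := by omega
  generalize size (U n L).1 = A at *
  generalize size (U n L).2 = B at *
  generalize size k = s at *
  generalize n.length = y at *
  clear h2 h3 hc hL hn h5
  have e1 : 1 ≤ T * x := Nat.mul_le_mul hT hx1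
  have e2 : T * y ≤ (y + 1) ^ 2 * (T * x) := by
    calc T * y ≤ T * x * (y + 1) ^ 2 := by
          have : y ≤ (y + 1) ^ 2 := by nlinarith
          calc T * y ≤ T * (y + 1) ^ 2 := Nat.mul_le_mul_left _ this
            _ ≤ T * x * (y + 1) ^ 2 := Nat.mul_le_mul_right _ (Nat.le_mul_of_pos_right _ hx1)
      _ = _ := by ring
  have e3 : T * (y * y) * (12 * x + 5 + 1) ≤ 18 * ((y + 1) ^ 2 * (T * x)) := by
    have h6 : 12 * x + 5 + 1 ≤ 18 * x := by omega
    have h7 : y * y ≤ (y + 1) ^ 2 := by nlinarith
    calc T * (y * y) * (12 * x + 5 + 1) ≤ T * (y + 1) ^ 2 * (18 * x) :=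
          Nat.mul_le_mul (Nat.mul_le_mul_left _ h7) h6
      _ = _ := by ring
  have e4 : 1 ≤ (y + 1) ^ 2 * (T * x) := Nat.mul_le_mul (Nat.one_le_pow _ _ (by omega)) e1
  have e5 : s ≤ s * ((y + 1) ^ 2 * (T * x)) := Nat.le_mul_of_pos_right _ e4
  rw [add_mul]
  omega

end Pool.Agent.Q9h3.MC
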