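import Pool.Agent.Q9h3.MC.Canon
import Pool.Agent.Q9h3.MC.Greedy
import Pool.Agent.Q9h3.MC.Union
import Pool.Agent.Q9h3.MC.FB

/-!
Nonuniform certificates of fpt size for graphs without a clique of size `k`, from a reduction of p-CLIQUE to
p-log-SAT with few queries.
-/

namespace Pool.Agent.Q9h3.MC

open Pool.Agent.Lib.CX

/-- The transcript of a run: the canonical forms of the queries and the answers. -/
def tr (D : List Bool × (Gr × ℕ) × List Bool × List Bool → Cnf) (a : List Bool) (x : Gr × ℕ)
    (r b : List Bool) : List (Cnf × Bool) :=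
  (List.range b.length).map fun i => (canon (D (a, x, r, b.take i)), b.getD i false)

theorem PT.tr {α : Type} [Enc α] {D : List Bool × (Gr × ℕ) × List Bool × List Bool → Cnf} (hD : PT D)
    {a r b : α → List Bool} {x : α → Gr × ℕ} (ha : PT a) (hx : PT x) (hr : PT r) (hb : PT b) :
    PT (fun p => tr D (a p) (x p) (r p) (b p)) := by
  have := PT.canon'
  unfold MC.tr
  fun_prop

/-- All answers of the transcript are correct. -/
def Correct (s : List (Cnf × Bool)) : Prop := ∀ p ∈ s, p.2 = true ↔ p.1.Sat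

section

variable {D : List Bool × (Gr × ℕ) × List Bool × List Bool → Cnf} {a : List Bool} {x : Gr × ℕ} {r : List Bool}

theorem answers_length (m : ℕ) : (answers D a x r m).length = m := by
  induction m with
  | zero => rfl
  | succ m ih => rw [answers, List.length_append, ih]; rfl

theorem answers_take {i m : ℕ} (h : i ≤ m) : (answers D a x r m).take i = answers D a x r i := by
  induction m with
  | zero =>
    obtain rfl : i = 0 := by omega
    rfl
  | succ m ih =>
    rcases h.eq_or_lt with rfl | h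
    · rw [List.take_of_length_le (answers_length _).le]
    · rw [answers, List.take_append_of_le_length (by rw [answers_length]; omega), ih (by omega)]

theorem answers_getD {i m : ℕ} (h : i < m) :
    (answers D a x r m).getD i false = true ↔ (D (a, x, r, answers D a x r i)).Sat := by
  classical
  have h1 : (answers D a x r m).getD i false = (answers D a x r (i + 1)).getD i false := by
    rw [← answers_take (show i + 1 ≤ m from h), List.getD_eq_getElem?_getD, List.getD_eq_getElem?_getD,
      List.getElem?_take_of_lt (Nat.lt_succ_self i)]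
  rw [h1, answers, List.getD_eq_getElem?_getD, List.getElem?_append_right (by rw [answers_length]), answers_length]
  simp

theorem tr_answers_length (m : ℕ) : (tr D a x r (answers D a x r m)).length = m := by
  simp [tr, answers_length]

theorem tr_snd (b : List Bool) : (tr D a x r b).map Prod.snd = b := by
  refine List.ext_getElem (by simp [tr]) fun i h1 h2 => ?_
  simp [tr, h2]

theorem correct_answers (m : ℕ) : Correct (tr D a x r (answers D a x r m)) := by
  intro p hp
  obtain ⟨i, hi, rfl⟩ := List.mem_map.1 hp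
  rw [List.mem_range, answers_length] at hi
  simp only
  rw [answers_getD hi, answers_take hi.le, canon_sat]

/-- A correct transcript which fits the run contains the correct answers. -/
theorem correct_eq {s : List (Cnf × Bool)} (hs : Correct s) (h : tr D a x r (s.map Prod.snd) = s) :
    s.map Prod.snd = answers D a x r s.length := by
  classical
  have key : ∀ i ≤ s.length, (s.map Prod.snd).take i = answers D a x r i := by
    intro i
    induction i with
    | zero => intro _; rfl
    | succ i ih =>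
      intro hi
      have h1 : i < s.length := hi
      have h2 : s[i] = (canon (D (a, x, r, (s.map Prod.snd).take i)), (s.map Prod.snd).getD i false) := by
        have h3 : (tr D a x r (s.map Prod.snd))[i]'(by rw [h]; exact h1) = s[i] := by simp only [h]
        rw [← h3]
        simp only [tr, List.getElem_map, List.getElem_range]
      have h4 := hs s[i] (List.getElem_mem h1)
      have h5 : s[i].1 = canon (D (a, x, r, answers D a x r i)) := by rw [← ih h1.le]; exact congrArg Prod.fst h2
      rw [h5, canon_sat] at h4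
      rw [List.take_add_one, ih h1.le, answers, List.getElem?_map, List.getElem?_eq_getElem h1]
      have h6 : s[i].2 = decide (D (a, x, r, answers D a x r i)).Sat := by
        rw [Bool.eq_iff_iff, h4, decide_eq_true_eq]
      simp [h6]
  have := key s.length le_rfl
  rwa [List.take_of_length_le (by simp)] at this

end

section main

variable (D : List Bool × (Gr × ℕ) × List Bool × List Bool → Cnf)
  (O : List Bool × (Gr × ℕ) × List Bool × List Bool → Bool)

/-- The test of the verifier: the graphs `L` and the guess `r` give a run with a transcript in the list `S`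
and with outcome `false`. -/
def Test (a : List Bool) (k : ℕ) (n : List Unit) (S : List (List (Cnf × Bool))) (L : List (List (ℕ × ℕ)))
    (r : List Bool) : Bool :=
  S.any fun s => decide (tr D a (U n L, k) r (s.map Prod.snd) = s) && !O (a, (U n L, k), r, s.map Prod.snd)

/-- The typed verifier: the advice consists of the advice of the reduction, the number of vertices, the
number of graphs and the length of the guess in unary, and a list of correct transcripts. -/
def V0 (p : (List Bool × List Unit × List Unit × List Unit × List (List (Cnf × Bool))) × (Gr × ℕ) ×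
    List (List (ℕ × ℕ)) × List Bool) : Bool :=
  decide (p.2.2.1.length = p.1.2.2.1.length) && decide (p.2.2.2.length ≤ p.1.2.2.2.1.length) &&
    decide (nE p.1.2.1 p.2.1.1 ∈ (p.2.2.1.map fun es => nE p.1.2.1 (p.1.2.1, es))) &&
    Test D O p.1.1 p.2.1.2 p.1.2.1 p.1.2.2.2.2 (p.2.2.1.map fun es => nE p.1.2.1 (p.1.2.1, es)) p.2.2.2

theorem PT.V0 (hD : PT D) (hO : PT O) : PT (V0 D O) := by
  have h := fun {α : Type} [Enc α] {a r b : α → List Bool} {x : α → Gr × ℕ} (ha : PT a) (hx : PT x) (hr : PT r)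
    (hb : PT b) => PT.tr hD ha hx hr hb
  unfold MC.V0 Test
  refine PT.and (PT.and (PT.and (by fun_prop) (by fun_prop)) (by fun_prop)) (PT.any ?_ (by fun_prop))
  refine PT.and (PT.decide_eq (h ?_ ?_ ?_ ?_) ?_) (PT.not ?_) <;> fun_prop

end main

/-- One length: the reduction at the parameter `k` and the size bound `N`. -/
theorem one_length {D : List Bool × (Gr × ℕ) × List Bool × List Bool → Cnf}
    {O : List Bool × (Gr × ℕ) × List Bool × List Bool → Bool} {v w k N R T m : ℕ} {a : List Bool} {n : List Unit}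
    (hk : 2 ≤ k)
    (ha : ∀ x : Gr × ℕ, x.2 = k → size x ≤ N →
      (∀ r : List Bool, r.length ≤ R → ∀ i < m,
        (D (a, x, r, answers D a x r i)).Width w ∧ (D (a, x, r, answers D a x r i)).vars.length ≤ v) ∧
      (CliqueP x ↔ ∀ r : List Bool, r.length ≤ R → O (a, x, r, answers D a x r m) = true))
    (hN : ∀ L : List (List (ℕ × ℕ)), L.length ≤ T → (∀ es ∈ L, Can n es) → size (U n L, k) ≤ N)
    (hT : 0 < T) (hE : m * (((2 * v + 1) ^ w) ^ 2 + 2) ≤ T) :
    ∃ S : List (List (Cnf × Bool)), S.length ≤ n.length * n.length + 1 ∧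
      (∀ y ∈ S, ∃ (L : List (List (ℕ × ℕ))) (r b : List Bool), L.length = T ∧ (∀ es ∈ L, Can n es) ∧
        r.length ≤ R ∧ b.length = m ∧ tr D a (U n L, k) r b = y) ∧
      ∀ G : Gr, G.n ≤ n.length → (¬ CliqueP (G, k) ↔ ∃ (L : List (List (ℕ × ℕ))) (r : List Bool), L.length = T ∧
        (∀ es ∈ L, Can n es) ∧ r.length ≤ R ∧ nE n G ∈ L ∧ Test D O a k n S L r = true) := by
  classical
  obtain ⟨Y, hY1, hY2⟩ := exists_canon v w
  obtain ⟨W, hW1, hW2⟩ := exists_lists (Y ×ˢ (Finset.univ : Finset Bool)) m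
  have hW3 : W.card ≤ 2 ^ T := by
    rw [Finset.card_product, Finset.card_univ, Fintype.card_bool] at hW1
    have h1 : Y.card * 2 + 1 ≤ 2 ^ (((2 * v + 1) ^ w) ^ 2 + 2) := by
      rw [pow_add]
      have := Nat.one_le_two_pow (n := ((2 * v + 1) ^ w) ^ 2)
      omega
    calc W.card ≤ (Y.card * 2 + 1) ^ m := hW1
      _ ≤ (2 ^ (((2 * v + 1) ^ w) ^ 2 + 2)) ^ m := Nat.pow_le_pow_left h1 m
      _ = 2 ^ (m * (((2 * v + 1) ^ w) ^ 2 + 2)) := by rw [← pow_mul, mul_comm]
      _ ≤ 2 ^ T := Nat.pow_le_pow_right (by norm_num) hE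
  let Z : Finset (List (ℕ × ℕ)) :=
    ((List.range n.length ×ˢ List.range n.length).sublists.toFinset).filter
      fun es => Can n es ∧ ¬ CliqueP ((n, es), k)
  have hZ : ∀ es, es ∈ Z ↔ Can n es ∧ ¬ CliqueP ((n, es), k) := fun es => by
    simp only [Z, Finset.mem_filter, List.mem_toFinset, List.mem_sublists]
    exact ⟨fun h => h.2, fun h => ⟨h.1.sub, h⟩⟩
  have hZc : Nat.log 2 Z.card ≤ n.length * n.length := by
    have h1 : Z.card ≤ 2 ^ (n.length * n.length) := by
      refine (Finset.card_filter_le _ _).trans ((List.toFinset_card_le _).trans ?_)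
      rw [List.length_sublists]
      rw [List.length_product, List.length_range]
    exact (Nat.log_mono_right h1).trans (Nat.log_pow (by norm_num) _).le
  have hof : ∀ L : Fin T → List (ℕ × ℕ), (∀ i, L i ∈ Z) → ∀ es ∈ List.ofFn L, es ∈ Z := fun L hL es hes => by
    obtain ⟨i, rfl⟩ := (List.mem_ofFn' _ _).1 hes
    exact hL i
  -- a guess with outcome `false`
  have hguess : ∀ L : Fin T → List (ℕ × ℕ), ∃ r : List Bool, r.length ≤ R ∧ ((∀ i, L i ∈ Z) →
      O (a, (U n (List.ofFn L), k), r, answers D a (U n (List.ofFn L), k) r m) = false) := fun L => by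
    by_cases hL : ∀ i, L i ∈ Z
    · have h4 := hof L hL
      have h5 : (List.ofFn L).length ≤ T := by simp
      have h6 : ∀ es ∈ List.ofFn L, Can n es := fun es hes => ((hZ es).1 (h4 es hes)).1
      have h7 : ¬ CliqueP (U n (List.ofFn L), k) := by
        rw [U_clique (fun es hes => (h6 es hes).lt) hk]
        rintro ⟨es, hes, hc⟩
        exact ((hZ es).1 (h4 es hes)).2 hc
      rw [(ha _ rfl (hN _ h5 h6)).2] at h7
      push Not at h7
      obtain ⟨r, hr1, hr2⟩ := h7
      exact ⟨r, hr1, fun _ => by simpa using hr2⟩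
    · exact ⟨[], by simp, fun h => absurd h hL⟩
  choose rr hr1 hr2 using hguess
  obtain ⟨S, h1, h2, h3⟩ := greedy hT (fun L : Fin T → List (ℕ × ℕ) =>
      tr D a (U n (List.ofFn L), k) (rr L) (answers D a (U n (List.ofFn L), k) (rr L) m)) W hW3 Z fun L hL => by
    have h4 := hof L hL
    have h5 : (List.ofFn L).length ≤ T := by simp
    have h6 : ∀ es ∈ List.ofFn L, Can n es := fun es hes => ((hZ es).1 (h4 es hes)).1
    refine hW2 _ (tr_answers_length m).le fun p hp => ?_
    obtain ⟨i, hi, rfl⟩ := List.mem_map.1 hp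
    rw [List.mem_range, answers_length] at hi
    simp only [Finset.mem_product, Finset.mem_univ, and_true]
    rw [answers_take hi.le]
    have h7 := (ha _ rfl (hN _ h5 h6)).1 (rr L) (hr1 L) i hi
    exact hY2 _ h7.1 h7.2
  -- the transcripts in `S` are correct
  have hS : ∀ y ∈ S, Correct y ∧ y.length = m := fun y hy => by
    obtain ⟨L, -, rfl⟩ := h2 y hy
    exact ⟨correct_answers m, tr_answers_length m⟩
  refine ⟨S.toList, by rw [Finset.length_toList]; omega, fun y hy => ?_, fun G hG => ⟨fun h => ?_, ?_⟩⟩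
  · obtain ⟨L, hL, e⟩ := h2 y (Finset.mem_toList.1 hy)
    exact ⟨List.ofFn L, rr L, _, by simp, fun es hes => ((hZ es).1 (hof L hL es hes)).1, hr1 L,
      answers_length m, e⟩
  · have h4 : nE n G ∈ Z := (hZ _).2 ⟨can_nE n G hG, by rwa [nE_clique n G hG hk]⟩
    obtain ⟨L, hL, ⟨i, hi⟩, e⟩ := h3 _ h4
    refine ⟨List.ofFn L, rr L, by simp, fun es hes => ((hZ es).1 (hof L hL es hes)).1, hr1 L,
      (List.mem_ofFn' _ _).2 ⟨i, hi⟩, ?_⟩
    unfold Test
    rw [List.any_eq_true]
    refine ⟨_, Finset.mem_toList.2 e, ?_⟩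
    rw [tr_snd, hr2 L hL]
    simp
  · rintro ⟨L, r, h4, h5, h6, h7, h8⟩ h
    have h9 : CliqueP (U n L, k) := by
      rw [U_clique (fun es hes => (h5 es hes).lt) hk]
      exact ⟨_, h7, (nE_clique n G hG hk).2 h⟩
    rw [(ha _ rfl (hN L h4.le h5)).2] at h9
    unfold Test at h8
    rw [List.any_eq_true] at h8
    obtain ⟨s, hs, h10⟩ := h8
    rw [Bool.and_eq_true, decide_eq_true_eq] at h10
    obtain ⟨hc, hl⟩ := hS s (Finset.mem_toList.1 hs)
    have h11 := correct_eq hc h10.1
    rw [hl] at h11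
    have h12 := h9 r h6
    rw [← h11] at h12
    simp [h12] at h10

/-- The number of queries is small in comparison with the number of graphs. -/
theorem count_le {m t B n z s L C T : ℕ} {ε : ℝ} (hs : 1 ≤ s * ε) (hz : n + 1 ≤ z)
    (hT : T = z ^ (3 * s)) (hB : 1 ≤ B) (hL : 1 ≤ L)
    (hm : (m : ℝ) ≤ t * ((B * ((n + 1) ^ 2 * (T * L)) : ℕ) : ℝ) ^ (1 - ε)) (h : t * B * L * C ≤ z) :
    m * C ≤ T := by
  obtain ⟨N, hN⟩ : ∃ N, N = B * ((n + 1) ^ 2 * (T * L)) := ⟨_, rfl⟩
  rw [← hN] at hm
  have hz0 : 0 < z := by omega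
  have hT0 : 0 < T := by rw [hT]; positivity
  have hTN : T ≤ N := by
    rw [hN]
    calc T = 1 * (1 * (T * 1)) := by ring
      _ ≤ _ := Nat.mul_le_mul hB (Nat.mul_le_mul (Nat.one_le_pow _ _ (by omega)) (Nat.mul_le_mul_left _ hL))
  have hN0 : (0 : ℝ) < N := by exact_mod_cast hT0.trans_le hTN
  have h1 : ((z : ℝ) ^ 3) ≤ (N : ℝ) ^ ε := by
    have hs0 : (s : ℝ) ≠ 0 := by
      intro h0
      rw [h0, zero_mul] at hs
      linarith
    calc (z : ℝ) ^ 3 = (((z : ℝ) ^ (3 * s) : ℝ)) ^ (1 / (s : ℝ)) := by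
          rw [← Real.rpow_natCast, ← Real.rpow_natCast, ← Real.rpow_mul (by positivity)]
          push_cast
          congr 1
          field_simp
      _ ≤ (N : ℝ) ^ (1 / (s : ℝ)) := by
          refine Real.rpow_le_rpow (by positivity) ?_ (by positivity)
          rw [hT] at hTN
          exact_mod_cast hTN
      _ ≤ (N : ℝ) ^ ε := by
          refine Real.rpow_le_rpow_of_exponent_le ?_ ?_
          · exact_mod_cast hT0.trans_le hTN
          · rw [div_le_iff₀ (by positivity)]
            linarith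
  have h2 : m * z ^ 3 ≤ t * N := by
    have : (m : ℝ) * z ^ 3 ≤ t * N := by
      calc (m : ℝ) * z ^ 3 ≤ (t * (N : ℝ) ^ (1 - ε)) * (N : ℝ) ^ ε :=
            mul_le_mul hm h1 (by positivity) (by positivity)
        _ = t * ((N : ℝ) ^ (1 - ε) * (N : ℝ) ^ ε) := by ring
        _ = t * N := by
            rw [← Real.rpow_add hN0]
            norm_num
    exact_mod_cast this
  have h3 : m * C * z ^ 3 ≤ T * z ^ 3 := by
    calc m * C * z ^ 3 = (m * z ^ 3) * C := by ring
      _ ≤ (t * N) * C := Nat.mul_le_mul_right _ h2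
      _ = (t * B * L * C) * (n + 1) ^ 2 * T := by rw [hN]; ring
      _ ≤ z * z ^ 2 * T := Nat.mul_le_mul_right _ (Nat.mul_le_mul h (Nat.pow_le_pow_left hz 2))
      _ = T * z ^ 3 := by ring
  exact Nat.le_of_mul_le_mul_right h3 (by positivity)

/-- The size of the list of the graphs. -/
theorem size_L {n : List Unit} {L : List (List (ℕ × ℕ))} {u : ℕ} (hn : n.length ≤ u) (hL : L.length ≤ u)
    (hc : ∀ es ∈ L, Can n es) : size L ≤ u * (u * u * (6 * u + 6) + 3) + 2 := by
  have h1 : ∀ es ∈ L, size es ≤ u * u * (6 * u + 6) + 2 := fun es hes => by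
    have h2 : ∀ e ∈ es, size e ≤ 6 * u + 5 := fun e he => by
      have h3 := (hc es hes).lt e he
      have h4 := size_nat_le e.1
      have h5 := size_nat_le e.2
      rw [show e = (e.1, e.2) from rfl, size_pair]
      omega
    have h3 := (hc es hes).sub.length_le
    rw [List.length_product, List.length_range] at h3
    exact (size_list_le h2).trans (Nat.add_le_add_right (Nat.mul_le_mul_right _
      (h3.trans (Nat.mul_le_mul hn hn))) 2)
  exact (size_list_le h1).trans (Nat.add_le_add_right (Nat.mul_le_mul_right _ hL) 2)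

/-- Nonuniform certificates for clique-freeness from a reduction of p-CLIQUE to p-log-SAT with few queries. -/
theorem part1 (h : FewQueries) : CliqueFreeCert := by
  obtain ⟨D, O, t, v, w, c, ε, hε, hD, hO, hvw, h⟩ := h
  obtain ⟨r', hr'⟩ := PB.size (f := fun p : List Bool × (Gr × ℕ) × List Bool × List Bool =>
    tr D p.1 p.2.1 p.2.2.1 p.2.2.2) (PT.tr hD (by fun_prop) (by fun_prop) (by fun_prop) (by fun_prop))
  obtain ⟨s, hs⟩ := exists_nat_ge (1 / ε)
  rw [div_le_iff₀ hε] at hs
  -- the bounds, for `u` at least the number of vertices and the number of graphs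
  obtain ⟨Nb, hNb⟩ : ∃ f : ℕ → ℕ → ℕ, f = fun k u => (size k + 40) * ((u + 1) ^ 2 * (u * (u + 1))) := ⟨_, rfl⟩
  have hN : FB Nb := by
    rw [hNb]
    exact ((FB.par fun k => size k).add (FB.par fun _ => 40)).mul (((FB.id.add (FB.par fun _ => 1)).pow 2).mul
      (FB.id.mul (FB.id.add (FB.par fun _ => 1))))
  obtain ⟨Rb, hRb⟩ : ∃ f : ℕ → ℕ → ℕ, f = fun k u => t k * (Nb k u + 1) ^ c := ⟨_, rfl⟩
  have hR : FB Rb := by
    rw [hRb]
    exact (FB.par t).mul ((hN.add (FB.par fun _ => 1)).pow c)
  -- the size of `(a, x, r, b)`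
  obtain ⟨Ib, hIb⟩ : ∃ f : ℕ → ℕ → ℕ, f = fun k u => 3 * Rb k u + Nb k u + 3 * Rb k u + 3 * u + 9 := ⟨_, rfl⟩
  have hI : FB Ib := by
    rw [hIb]
    exact (((((FB.par fun _ => 3).mul hR).add hN).add ((FB.par fun _ => 3).mul hR)).add
      ((FB.par fun _ => 3).mul FB.id)).add (FB.par fun _ => 9)
  obtain ⟨Wb, hWb⟩ : ∃ f : ℕ → ℕ → ℕ, f = fun k u =>
      2 * (3 * Rb k u + 3 * u + 3 * u + 3 * Rb k u + ((u * u + 1) * (r'.eval (Ib k u) + 1)) + 20) +
      2 * (u * (u * u * (6 * u + 6) + 3) + 3 * Rb k u + 20) := ⟨_, rfl⟩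
  have hW : FB Wb := by
    rw [hWb]
    have h3u := (FB.par fun _ => 3).mul FB.id
    have h3R := (FB.par fun _ => 3).mul hR
    exact ((FB.par fun _ => 2).mul (((((h3R.add h3u).add h3u).add h3R).add
      (((FB.id.mul FB.id).add (FB.par fun _ => 1)).mul ((hI.eval r').add (FB.par fun _ => 1)))).add
        (FB.par fun _ => 20))).add ((FB.par fun _ => 2).mul (((FB.id.mul (((FB.id.mul FB.id).mul
          (((FB.par fun _ => 6).mul FB.id).add (FB.par fun _ => 6))).add (FB.par fun _ => 3))).add h3R).add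
            (FB.par fun _ => 20)))
  choose z₀ hz₁ hz₂ using fun k => exists_z (t k) (size k + 40) s (v k) (w k) (hvw k)
  obtain ⟨F', c', hF'⟩ := hW.sub z₀ (3 * s)
  refine ⟨fun p => V0 D O (decode p.1, p.2.1, decode p.2.2), F', c', ?_, fun k hk n => ?_⟩
  · have h1 := PT.V0 D O hD hO
    have h2 : PT fun p : List Bool × (Gr × ℕ) × List Bool =>
        (decode p.1 : List Bool × List Unit × List Unit × List Unit × List (List (Cnf × Bool))) :=
      PT.decode PT.fst'
    have h3 : PT fun p : List Bool × (Gr × ℕ) × List Bool =>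
        (decode p.2.2 : List (List (ℕ × ℕ)) × List Bool) := PT.decode (by fun_prop)
    exact h1.comp (h2.pair ((by fun_prop : PT fun p : List Bool × (Gr × ℕ) × List Bool => p.2.1).pair h3))
  -- the number of graphs
  obtain ⟨z, hz⟩ : ∃ z, z = z₀ k * (n + 1) := ⟨_, rfl⟩
  obtain ⟨T, hT⟩ : ∃ T, T = z ^ (3 * s) := ⟨_, rfl⟩
  have hF1 := hF' k n
  simp only [← hz, ← hT] at hF1
  have hnz : n + 1 ≤ z := by
    rw [hz]
    nlinarith [hz₁ k]
  have hz0 : z₀ k ≤ z := by
    rw [hz]
    nlinarith [hz₁ k]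
  have hs0 : s ≠ 0 := by
    rintro rfl
    norm_num at hs
  have hzT : z ≤ T := by
    rw [hT]
    exact Nat.le_self_pow (by omega) z
  have hnT : n ≤ T := by omega
  have hTpos : 0 < T := by omega
  -- the bound for the instances
  obtain ⟨N, hN'⟩ : ∃ N, N = (size k + 40) * ((n + 1) ^ 2 * (T * (Nat.log 2 T + 1))) := ⟨_, rfl⟩
  have hNN : N ≤ Nb k T := by
    rw [hN', hNb]
    refine Nat.mul_le_mul_left _ (Nat.mul_le_mul (Nat.pow_le_pow_left (by omega) 2) (Nat.mul_le_mul_left _ ?_))
    have := Nat.log_le_self 2 T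
    omega
  have hTN : T ≤ N := by
    rw [hN']
    calc T = 1 * (1 * (T * 1)) := by ring
      _ ≤ _ := Nat.mul_le_mul (by omega) (Nat.mul_le_mul (Nat.one_le_pow _ _ (by omega))
        (Nat.mul_le_mul_left _ (Nat.le_add_left _ _)))
  have hE2 := hz₂ k z hz0 N (hzT.trans hTN) (by
    rw [← hT, hN']
    exact Nat.mul_le_mul_left _ (Nat.mul_le_mul_right _ (Nat.pow_le_pow_left hnz 2)))
  rw [← hT] at hE2
  obtain ⟨a, m, ha, hm, hred⟩ := h k N
  have hRR : t k * (N + 1) ^ c ≤ Rb k T := by
    rw [hRb]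
    exact Nat.mul_le_mul_left _ (Nat.pow_le_pow_left (by omega) c)
  obtain ⟨R, hR'⟩ : ∃ R, R = t k * (N + 1) ^ c := ⟨_, rfl⟩
  rw [← hR'] at ha hred hRR
  have hmT : m * (((2 * v k N + 1) ^ w k N) ^ 2 + 2) ≤ T :=
    count_le (ε := ε) hs hnz hT (by omega) (Nat.succ_le_succ (Nat.zero_le (Nat.log 2 T)))
      (by rw [← hN']; exact hm) hE2
  have hmT' : m ≤ T := le_trans (Nat.le_mul_of_pos_right _ (by omega)) hmT
  obtain ⟨ν, hν⟩ : ∃ ν : List Unit, ν.length = n := ⟨List.replicate n (), by simp⟩
  obtain ⟨τ, hτ⟩ : ∃ τ : List Unit, τ.length = T := ⟨List.replicate T (), by simp⟩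
  obtain ⟨ρ, hρ⟩ : ∃ ρ : List Unit, ρ.length = R := ⟨List.replicate R (), by simp⟩
  have hsU : ∀ L : List (List (ℕ × ℕ)), L.length ≤ T → (∀ es ∈ L, Can ν es) → size (U ν L, k) ≤ N :=
    fun L h1 h2 => by
      have := size_U (k := k) hTpos (hν.trans_le hnT) h1 h2
      rw [hν] at this
      rw [hN']
      exact this
  have hsI : ∀ (L : List (List (ℕ × ℕ))) (r b : List Bool), L.length ≤ T → (∀ es ∈ L, Can ν es) → r.length ≤ R →
      b.length ≤ m → size (a, (U ν L, k), r, b) ≤ Ib k T := fun L r b h1 h2 h3 h4 => by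
    have h5 := hsU L h1 h2
    have e1 := size_pair a ((U ν L, k), r, b)
    have e2 := size_pair (U ν L, k) (r, b)
    have e3 := size_pair r b
    have e4 := size_bits a
    have e5 := size_bits r
    have e6 := size_bits b
    rw [hIb]
    simp only
    omega
  obtain ⟨S, hS1, hS2, hS3⟩ := one_length (D := D) (O := O) (v := v k N) (w := w k N) (k := k) (N := N) (R := R)
    (T := T) (m := m) (a := a) (n := ν) hk (fun x hx hs => hred x hx hs) hsU hTpos hmT
  refine ⟨code (a, ν, τ, ρ, S), ?_, fun G hG => ?_⟩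
  · -- the length of the advice
    refine (code_length _).trans (le_trans ?_ hF1)
    rw [size_pair, size_pair, size_pair, size_pair, size_units, size_units, size_units, size_bits, hν, hτ, hρ]
    have h1 : size S ≤ (T * T + 1) * (r'.eval (Ib k T) + 1) + 2 := by
      have h2 : ∀ y ∈ S, size y ≤ r'.eval (Ib k T) := by
        intro y hy
        obtain ⟨L, r, b, hL1, hL2, hL3, hL4, rfl⟩ := hS2 y hy
        exact (hr' (a, (U ν L, k), r, b)).trans (eval_mono r' (hsI L r b hL1.le hL2 hL3 hL4.le))
      refine (size_list_le h2).trans (Nat.add_le_add_right (Nat.mul_le_mul_right _ (hS1.trans ?_)) 2)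
      rw [hν]
      exact Nat.add_le_add_right (Nat.mul_le_mul hnT hnT) 1
    rw [hWb]
    simp only
    omega
  · rw [hS3 G (by rw [hν]; exact hG)]
    constructor
    · rintro ⟨L, r, h1, h2, h3, h4, h5⟩
      have h6 : L.map (fun es => nE ν (ν, es)) = L := by
        conv_rhs => rw [← List.map_id L]
        exact List.map_congr_left fun es hes => h2 es hes
      refine ⟨code (L, r), (code_length _).trans (le_trans ?_ hF1), ?_⟩
      · have h7 := size_L (hν.trans_le hnT) h1.le h2
        rw [size_pair, size_bits, hWb]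
        simp only
        omega
      · simp only [decode_code, V0, h6, h1, hτ, hρ, decide_true, Bool.true_and, Bool.and_eq_true,
          decide_eq_true_eq]
        exact ⟨⟨h3, h4⟩, h5⟩
    · rintro ⟨π, -, hπ⟩
      simp only [decode_code, V0, Bool.and_eq_true, decide_eq_true_eq] at hπ
      obtain ⟨⟨⟨h1, h2⟩, h3⟩, h4⟩ := hπ
      refine ⟨(decode π : List (List (ℕ × ℕ)) × List Bool).1.map fun es => nE ν (ν, es),
        (decode π : List (List (ℕ × ℕ)) × List Bool).2, by simp [h1, hτ], ?_, h2.trans hρ.le, h3, h4⟩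
      intro es hes
      obtain ⟨es', -, rfl⟩ := List.mem_map.1 hes
      exact can_nE' ν es'

end Pool.Agent.Q9h3.MC
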