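import Pool.Agent.Q9h3.MC.Defs
import Pool.Agent.Q9h3.MC.FB

/-!
The reduction of satisfiability of formulas of width `d` to p-CLIQUE: the variables are divided into `j` groups;
the vertices are the pairs of a `d`-tuple of groups and assignments to these groups.
-/

namespace Pool.Agent.Q9h3.MC

open Pool.Agent.Lib.CX

theorem mkGr_clique {V : Type} [DecidableEq V] (vs : List V) (es : List (V × V)) (k : ℕ) :
    CliqueP (mkGr vs es, k) ↔
      ∃ t : Finset V, (∀ x ∈ t, x ∈ vs) ∧ (∀ x ∈ t, ∀ y ∈ t, x ≠ y → (x, y) ∈ es ∨ (y, x) ∈ es) ∧ k ≤ t.card := by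
  constructor
  · rintro ⟨s, h1, h2⟩
    refine ⟨s.image fun i => (mkGrIso vs es i).1, ?_, ?_, ?_⟩
    · simp only [Finset.forall_mem_image]; exact fun i _ => (mkGrIso vs es i).2
    · simp only [Finset.forall_mem_image]
      intro i hi j hj h3
      have h4 := (mkGrIso vs es).map_rel_iff.2 (h1 hi hj fun e => h3 (by rw [e]))
      simp only [SimpleGraph.comap_adj, Function.Embedding.subtype_apply, SimpleGraph.fromRel_adj] at h4
      exact h4.2
    · rwa [Finset.card_image_of_injective _ fun a b h => (mkGrIso vs es).injective (Subtype.ext h)]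
  · rintro ⟨t, h1, h2, h3⟩
    refine ⟨Finset.univ.filter fun i => (mkGrIso vs es i).1 ∈ t, fun i hi j hj h4 => ?_, h3.trans ?_⟩
    · simp only [Finset.coe_filter, Finset.mem_univ, true_and, Set.mem_ofPred_eq] at hi hj
      refine (mkGrIso vs es).map_rel_iff.1 ?_
      simp only [SimpleGraph.comap_adj, Function.Embedding.subtype_apply, SimpleGraph.fromRel_adj]
      have h5 : (mkGrIso vs es i).1 ≠ (mkGrIso vs es j).1 := fun e =>
        h4 ((mkGrIso vs es).injective (Subtype.ext e))
      exact ⟨h5, h2 _ hi _ hj h5⟩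
    · refine Finset.card_le_card_of_surjOn (fun i => (mkGrIso vs es i).1) fun x hx => ?_
      exact ⟨(mkGrIso vs es).symm ⟨x, h1 x hx⟩, by simpa using hx, by simp⟩

/-- The lists of length `d` with members in `L`. -/
def tuples {α : Type} : ℕ → List α → List (List α)
  | 0, _ => [[]]
  | d + 1, L => (L ×ˢ tuples d L).map fun p => p.1 :: p.2

theorem mem_tuples {α : Type} {L : List α} {d : ℕ} {x : List α} :
    x ∈ tuples d L ↔ x.length = d ∧ ∀ y ∈ x, y ∈ L := by
  induction d generalizing x with
  | zero =>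
    simp only [tuples, List.mem_singleton, List.length_eq_zero_iff]
    exact ⟨fun h => ⟨h, by simp [h]⟩, fun h => h.1⟩
  | succ d ih =>
    simp only [tuples, List.mem_map, List.mem_product, ih, Prod.exists]
    constructor
    · rintro ⟨a, y, ⟨h1, h2, h3⟩, rfl⟩
      exact ⟨by simp [h2], by simp only [List.forall_mem_cons]; exact ⟨h1, h3⟩⟩
    · rintro ⟨h1, h2⟩
      rcases x with _ | ⟨a, y⟩
      · simp at h1
      · simp only [List.forall_mem_cons] at h2
        exact ⟨a, y, ⟨h2.1, by simpa using h1, h2.2⟩, rfl⟩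

theorem length_tuples {α : Type} (L : List α) (d : ℕ) : (tuples d L).length = L.length ^ d := by
  induction d with
  | zero => rfl
  | succ d ih => rw [tuples, List.length_map, List.length_product, ih, pow_succ']

theorem PT.tuples {α β : Type} [Enc α] [Enc β] (d : ℕ) {L : α → List β} (hL : PT L) :
    PT (fun a => tuples d (L a)) := by
  induction d with
  | zero => exact PT.const [[]]
  | succ d ih => unfold MC.tuples; fun_prop

/-- A vertex: a list of pairs of a group and an assignment to this group. -/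
abbrev Vx := List (ℕ × List Bool)

/-- The assignments of `x` and `y` agree. -/
def agree (x y : Vx) : Bool := decide (∀ p ∈ x, ∀ q ∈ y, p.1 = q.1 → p.2 = q.2)

/-- The vertex `x` makes the literal `l` true. -/
def litOn (j : ℕ) (x : Vx) (l : ℕ × Bool) : Bool :=
  decide (∃ p ∈ x, p.1 = l.1 % j ∧ p.2.getD (l.1 / j) false = l.2)

/-- The vertex `x` satisfies the clauses all of whose variables are in its groups. -/
def good (j : ℕ) (φ : Cnf) (x : Vx) : Bool :=
  decide (∀ C ∈ φ, (∀ l ∈ C, ∃ p ∈ x, p.1 = l.1 % j) → ∃ l ∈ C, litOn j x l = true)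

/-- The vertices. -/
def vxs (d j : ℕ) (W : List (List Bool)) (φ : Cnf) : List Vx :=
  (tuples d (List.range j ×ˢ W)).filter fun x => agree x x && good j φ x

/-- The edges. -/
def eds (d j : ℕ) (W : List (List Bool)) (φ : Cnf) : List (Vx × Vx) :=
  (vxs d j W φ ×ˢ vxs d j W φ).filter fun e => agree e.1 e.2 && decide (e.1.map Prod.fst ≠ e.2.map Prod.fst)

/-- The graph of the formula. -/
def grOf (d j : ℕ) (W : List (List Bool)) (φ : Cnf) : Gr := mkGr (vxs d j W φ) (eds d j W φ)

section

variable {α : Type} [Enc α]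

@[fun_prop] theorem PT.agree {x y : α → Vx} (hx : PT x) (hy : PT y) : PT (fun a => agree (x a) (y a)) := by
  unfold MC.agree; fun_prop

@[fun_prop] theorem PT.litOn {j : α → ℕ} {x : α → Vx} {l : α → ℕ × Bool} (hj : PT j) (hx : PT x) (hl : PT l) :
    PT (fun a => litOn (j a) (x a) (l a)) := by
  unfold MC.litOn; fun_prop

@[fun_prop] theorem PT.good {j : α → ℕ} {φ : α → Cnf} {x : α → Vx} (hj : PT j) (hφ : PT φ) (hx : PT x) :
    PT (fun a => good (j a) (φ a) (x a)) := by
  unfold MC.good; fun_prop

theorem PT.vxs (d : ℕ) {J : α → List Unit} {W : α → List (List Bool)} {φ : α → Cnf} (hj : PT J) (hW : PT W)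
    (hφ : PT φ) : PT (fun a => vxs d (J a).length (W a) (φ a)) := by
  have := PT.tuples d (L := fun a => List.range (J a).length ×ˢ W a) (by fun_prop)
  unfold MC.vxs
  fun_prop

theorem PT.grOf (d : ℕ) {J : α → List Unit} {W : α → List (List Bool)} {φ : α → Cnf} (hj : PT J) (hW : PT W)
    (hφ : PT φ) : PT (fun a => grOf d (J a).length (W a) (φ a)) := by
  have := PT.vxs d hj hW hφ
  unfold MC.grOf MC.eds
  fun_prop

end

theorem nodup_tuples {α : Type} {L : List α} (hL : L.Nodup) (d : ℕ) : (tuples d L).Nodup := by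
  induction d with
  | zero => simp [tuples]
  | succ d ih =>
    rw [tuples]
    refine List.Nodup.map ?_ (hL.product ih)
    rintro ⟨a, x⟩ ⟨b, y⟩ h
    simp only [List.cons.injEq] at h
    exact Prod.ext h.1 h.2

theorem agree_iff {x y : Vx} : agree x y = true ↔ ∀ p ∈ x, ∀ q ∈ y, p.1 = q.1 → p.2 = q.2 := by
  unfold agree
  rw [decide_eq_true_eq]

theorem mem_vxs {d j : ℕ} {W : List (List Bool)} {φ : Cnf} {x : Vx} :
    x ∈ vxs d j W φ ↔ (x.length = d ∧ ∀ p ∈ x, p.1 < j ∧ p.2 ∈ W) ∧ agree x x = true ∧ good j φ x = true := by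
  rw [vxs, List.mem_filter, mem_tuples, Bool.and_eq_true]
  simp only [List.mem_product, List.mem_range, Prod.forall]

/-- The correctness of the reduction. -/
theorem grOf_sat {d j w n : ℕ} (hj : 0 < j) (hd : 0 < d) {W : List (List Bool)}
    (hW : ∀ b : List Bool, b.length = w → b ∈ W) (hn : n ≤ w * j) {φ : Cnf} (hφ : φ.Width d)
    (hv : ∀ x ∈ φ.vars, x < n) : CliqueP (grOf d j W φ, j ^ d) ↔ φ.Sat := by
  classical
  rw [grOf, mkGr_clique]
  constructor
  · rintro ⟨t, h1, h2, h3⟩
    have h2' : ∀ x ∈ t, ∀ y ∈ t, x ≠ y → (∀ p ∈ x, ∀ q ∈ y, p.1 = q.1 → p.2 = q.2) ∧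
        x.map Prod.fst ≠ y.map Prod.fst := by
      intro x hx y hy e
      rcases h2 x hx y hy e with h | h <;> rw [eds, List.mem_filter, Bool.and_eq_true, decide_eq_true_eq,
        agree_iff] at h
      · exact h.2
      · exact ⟨fun p hp q hq e => (h.2.1 q hq p hp e.symm).symm, fun e => h.2.2 e.symm⟩
    have hag : ∀ x ∈ t, ∀ y ∈ t, ∀ p ∈ x, ∀ q ∈ y, p.1 = q.1 → p.2 = q.2 := by
      intro x hx y hy
      by_cases e : x = y
      · subst e
        exact agree_iff.1 (mem_vxs.1 (h1 x hx)).2.1
      · exact (h2' x hx y hy e).1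
    have hinj : Set.InjOn (fun x : Vx => x.map Prod.fst) t := fun x hx y hy e => by
      by_contra h
      exact (h2' x hx y hy h).2 e
    have himg : t.image (fun x : Vx => x.map Prod.fst) = (tuples d (List.range j)).toFinset := by
      refine Finset.eq_of_subset_of_card_le ?_ ?_
      · simp only [Finset.image_subset_iff, List.mem_toFinset, mem_tuples, List.length_map, List.mem_range]
        intro x hx
        have h4 := (mem_vxs.1 (h1 x hx)).1
        refine ⟨h4.1, fun g hg => ?_⟩
        obtain ⟨p, hp, rfl⟩ := List.mem_map.1 hg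
        exact (h4.2 p hp).1
      · rw [Finset.card_image_of_injOn hinj]
        refine (List.toFinset_card_le _).trans ?_
        rw [length_tuples, List.length_range]
        exact h3
    have hsurj : ∀ τ ∈ tuples d (List.range j), ∃ x ∈ t, x.map Prod.fst = τ := fun τ hτ => by
      have := List.mem_toFinset.2 hτ
      rw [← himg] at this
      obtain ⟨x, hx, e⟩ := Finset.mem_image.1 this
      exact ⟨x, hx, e⟩
    have hα : ∀ g, ∃ b : List Bool, g < j → ∃ x ∈ t, (g, b) ∈ x := fun g => by
      by_cases hg : g < j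
      · obtain ⟨x, hx, e⟩ := hsurj (List.replicate d g) (mem_tuples.2 ⟨by simp, fun y hy => by
          rw [List.eq_of_mem_replicate hy]; exact List.mem_range.2 hg⟩)
        have : g ∈ x.map Prod.fst := by
          rw [e]
          exact List.mem_replicate.2 ⟨hd.ne', rfl⟩
        obtain ⟨p, hp, rfl⟩ := List.mem_map.1 this
        exact ⟨p.2, fun _ => ⟨x, hx, hp⟩⟩
      · exact ⟨[], fun h => absurd h hg⟩
    choose α hα using hα
    refine ⟨fun z => (α (z % j)).getD (z / j) false, fun C hC => ?_⟩
    have hCd := hφ C hC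
    obtain ⟨x, hx, e⟩ := hsurj (C.map (fun l => l.1 % j) ++ List.replicate (d - C.length) 0)
      (mem_tuples.2 ⟨by simp; omega, fun y hy => by
        rw [List.mem_range]
        rcases List.mem_append.1 hy with hy | hy
        · obtain ⟨l, -, rfl⟩ := List.mem_map.1 hy
          exact Nat.mod_lt _ hj
        · rw [List.eq_of_mem_replicate hy]
          exact hj⟩)
    have hg := (mem_vxs.1 (h1 x hx)).2.2
    unfold good at hg
    rw [decide_eq_true_eq] at hg
    obtain ⟨l, hl, hlit⟩ := hg C hC fun l hl => by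
      have : l.1 % j ∈ x.map Prod.fst := by
        rw [e]
        exact List.mem_append_left _ (List.mem_map.2 ⟨l, hl, rfl⟩)
      obtain ⟨p, hp, e⟩ := List.mem_map.1 this
      exact ⟨p, hp, e⟩
    unfold litOn at hlit
    rw [decide_eq_true_eq] at hlit
    obtain ⟨p, hp, hp1, hp2⟩ := hlit
    obtain ⟨y, hy, hpy⟩ := hα (l.1 % j) (Nat.mod_lt _ hj)
    refine ⟨l, hl, ?_⟩
    rw [← hp2, hag x hx y hy p hp _ hpy hp1]
  · rintro ⟨v, hsat⟩
    let α : ℕ → List Bool := fun g => (List.range w).map fun i => v (i * j + g)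
    have hαv : ∀ z < n, (α (z % j)).getD (z / j) false = v z := fun z hz => by
      have h4 : z / j < w := (Nat.div_lt_iff_lt_mul hj).2 (by omega)
      simp only [α, List.getD_eq_getElem?_getD]
      rw [List.getElem?_map, List.getElem?_range h4]
      simp only [Option.map_some, Option.getD_some]
      rw [mul_comm, Nat.div_add_mod]
    let f : List ℕ → Vx := fun τ => τ.map fun g => (g, α g)
    have hf : ∀ τ, (f τ).map Prod.fst = τ := fun τ => by simp [f, Function.comp_def]
    have hfα : ∀ τ, ∀ p ∈ f τ, p.2 = α p.1 := fun τ p hp => by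
      obtain ⟨g, -, rfl⟩ := List.mem_map.1 hp
      rfl
    have hmem : ∀ τ ∈ tuples d (List.range j), f τ ∈ vxs d j W φ := fun τ hτ => by
      obtain ⟨h4, h5⟩ := mem_tuples.1 hτ
      refine mem_vxs.2 ⟨⟨by simp [f, h4], fun p hp => ?_⟩, agree_iff.2 fun p hp q hq e => ?_, ?_⟩
      · obtain ⟨g, hg, rfl⟩ := List.mem_map.1 hp
        exact ⟨List.mem_range.1 (h5 g hg), hW _ (by simp [α])⟩
      · rw [hfα τ p hp, hfα τ q hq, e]
      · unfold good
        rw [decide_eq_true_eq]
        intro C hC hcov
        obtain ⟨l, hl, hlv⟩ := hsat C hC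
        obtain ⟨p, hp, hp1⟩ := hcov l hl
        refine ⟨l, hl, ?_⟩
        unfold litOn
        rw [decide_eq_true_eq]
        refine ⟨p, hp, hp1, ?_⟩
        rw [hfα τ p hp, hp1, hαv _ (hv _ ?_), hlv]
        rw [Cnf.vars, List.mem_dedup, List.mem_map]
        exact ⟨l, List.mem_flatten.2 ⟨C, hC, hl⟩, rfl⟩
    refine ⟨(tuples d (List.range j)).toFinset.image f, ?_, ?_, ?_⟩
    · simp only [Finset.forall_mem_image, List.mem_toFinset]
      exact hmem
    · simp only [Finset.forall_mem_image, List.mem_toFinset]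
      intro τ hτ σ hσ e
      left
      rw [eds, List.mem_filter, Bool.and_eq_true, decide_eq_true_eq, agree_iff, hf, hf]
      refine ⟨List.mem_product.2 ⟨hmem τ hτ, hmem σ hσ⟩, fun p hp q hq e => ?_, fun h => e (by rw [h])⟩
      rw [hfα τ p hp, hfα σ q hq, e]
    · rw [Finset.card_image_of_injective _ (Function.LeftInverse.injective hf),
        List.toFinset_card_of_nodup (nodup_tuples List.nodup_range d), length_tuples, List.length_range]

theorem grOf_n (d j : ℕ) (W : List (List Bool)) (φ : Cnf) : (grOf d j W φ).n ≤ (j * W.length) ^ d := by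
  rw [grOf, mkGr_n]
  calc (vxs d j W φ).dedup.length ≤ (vxs d j W φ).length := (List.dedup_sublist _).length_le
    _ ≤ (tuples d (List.range j ×ˢ W)).length := List.length_filter_le _ _
    _ = _ := by rw [length_tuples, List.length_product, List.length_range]

end Pool.Agent.Q9h3.MC
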