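import Pool.Agent.Q9h3.MC.Part1
import Pool.Agent.Q9h3.MC.Part2

/-!
Nonuniform certificates of subexponential size for unsatisfiable formulas, from nonuniform certificates of fpt
size for clique-freeness; and the trivial converse of part 1.
-/

namespace Pool.Agent.Q9h3.MC

open Pool.Agent.Lib.CX

/-- The verifier for unsatisfiability. -/
def V2 (V : List Bool × (Gr × ℕ) × List Bool → Bool) (d : ℕ)
    (p : (List Unit × List Unit × List (List Bool) × List Bool) × Cnf × List Bool) : Bool :=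
  decide (p.2.2.length ≤ p.1.2.1.length) &&
    V (p.1.2.2.2, (grOf (d + 1) p.1.1.length p.1.2.2.1 p.2.1, p.1.1.length ^ (d + 1)), p.2.2)

theorem PT.V2 {V : List Bool × (Gr × ℕ) × List Bool → Bool} (hV : PT V) (d : ℕ) : PT (V2 V d) := by
  have := PT.grOf (d + 1) (J := fun p : (List Unit × List Unit × List (List Bool) × List Bool) × Cnf × List Bool =>
    p.1.1) (W := fun p => p.1.2.2.1) (φ := fun p => p.2.1) (by fun_prop) (by fun_prop) (by fun_prop)
  unfold MC.V2
  fun_prop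

theorem part2 (h : CliqueFreeCert) : SubexpCert := by
  intro d
  obtain ⟨V, F, c, hV, h⟩ := h
  refine ⟨fun p => V2 V d (decode p.1, p.2.1, p.2.2), ?_, fun ε hε => ?_⟩
  · have h1 := PT.V2 hV d
    have h2 : PT fun p : List Bool × Cnf × List Bool =>
        (decode p.1 : List Unit × List Unit × List (List Bool) × List Bool) := PT.decode PT.fst'
    exact h1.comp (h2.pair (by fun_prop))
  obtain ⟨j, hj⟩ := exists_nat_ge (max 2 (((d + 1) * c + 2 : ℕ) / ε))
  have hj2 : 2 ≤ j := by exact_mod_cast (le_max_left _ _).trans hj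
  have hj3 : (((d + 1) * c + 2 : ℕ) : ℝ) ≤ j * ε := by
    rw [← div_le_iff₀ hε]
    exact (le_max_right _ _).trans hj
  have hj0 : 0 < j := by omega
  have hjR : (0 : ℝ) < j := by exact_mod_cast hj0
  obtain ⟨K, hK⟩ : ∃ K, K = j ^ (d + 1) := ⟨_, rfl⟩
  have hK2 : 2 ≤ K := by
    rw [hK]
    exact hj2.trans (Nat.le_self_pow (by omega) j)
  -- the constants
  obtain ⟨C₁, hC₁⟩ : ∃ C₁ : ℝ, C₁ = F K * (2 ^ c * (j : ℝ) ^ ((d + 1) * c) * 2 ^ ((d + 1) * c)) := ⟨_, rfl⟩
  have hC₁0 : 0 ≤ C₁ := by rw [hC₁]; positivity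
  refine ⟨2 * ((3 * j + 2) + (3 * C₁ + 2) + 14 + (3 * C₁ + 2) + 3) + C₁, fun n => ?_⟩
  obtain ⟨w, hw⟩ : ∃ w, w = n / j + 1 := ⟨_, rfl⟩
  have hwn : n ≤ w * j := by
    have := Nat.div_add_mod n j
    have := Nat.mod_lt n hj0
    rw [hw]
    nlinarith
  have hwR : (w : ℝ) ≤ n / j + 1 := by
    rw [hw]
    push_cast
    have := @Nat.cast_div_le ℝ _ _ _ n j
    linarith
  obtain ⟨W, hW⟩ : ∃ W, W = tuples w [false, true] := ⟨_, rfl⟩
  have hWl : W.length = 2 ^ w := by rw [hW, length_tuples]; rfl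
  have hWm : ∀ b : List Bool, b.length = w → b ∈ W := fun b hb => by
    rw [hW]
    exact mem_tuples.2 ⟨hb, fun y _ => by cases y <;> simp⟩
  have hWs : size W ≤ 3 * (2 ^ w * 2 ^ w) + 2 := by
    have h1 : ∀ b ∈ W, size b ≤ 3 * w + 2 := fun b hb => by
      rw [hW, mem_tuples] at hb
      rw [size_bits, hb.1]
    have h2 := size_list_le h1
    have h3 : w < 2 ^ w := Nat.lt_two_pow_self
    rw [hWl] at h2
    refine h2.trans (Nat.add_le_add_right ?_ 2)
    calc 2 ^ w * (3 * w + 2 + 1) ≤ 2 ^ w * (3 * 2 ^ w) := Nat.mul_le_mul_left _ (by omega)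
      _ = _ := by ring
  obtain ⟨N, hN⟩ : ∃ N, N = (j * 2 ^ w) ^ (d + 1) := ⟨_, rfl⟩
  obtain ⟨B, hB⟩ : ∃ B, B = F K * (N + 1) ^ c := ⟨_, rfl⟩
  obtain ⟨a, ha, hred⟩ := h K hK2 N
  rw [← hB] at ha hred
  have hpow : ∀ m : ℕ, m ≤ (d + 1) * c + 2 → (2 : ℝ) ^ (m * w) ≤ 2 ^ m * 2 ^ (ε * n) := fun m hm => by
    have h1 : (m : ℝ) * w ≤ m + ε * n := by
      have h2 : (m : ℝ) ≤ j * ε := le_trans (by exact_mod_cast hm) hj3
      have h3 : (m : ℝ) * w ≤ m * (n / j + 1) := mul_le_mul_of_nonneg_left hwR (by positivity)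
      have h4 : (m : ℝ) * (n / j) ≤ ε * n := by
        rw [← mul_div_assoc, div_le_iff₀ hjR]
        nlinarith [Nat.cast_nonneg (α := ℝ) n]
      nlinarith
    calc (2 : ℝ) ^ (m * w) = (2 : ℝ) ^ ((m : ℝ) * w) := by
          rw [← Nat.cast_mul, Real.rpow_natCast]
      _ ≤ (2 : ℝ) ^ ((m : ℝ) + ε * n) := Real.rpow_le_rpow_of_exponent_le (by norm_num) h1
      _ = _ := by rw [Real.rpow_add (by norm_num), Real.rpow_natCast]
  have hexp1 : (1 : ℝ) ≤ 2 ^ (ε * n) := Real.one_le_rpow (by norm_num) (by positivity)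
  have hBR : (B : ℝ) ≤ C₁ * 2 ^ (ε * n) := by
    have h1 : N + 1 ≤ 2 * N := by
      have : 1 ≤ N := by rw [hN]; exact Nat.one_le_pow _ _ (by positivity)
      omega
    have h2 : (B : ℝ) ≤ F K * (2 * ((j : ℝ) * 2 ^ w) ^ (d + 1)) ^ c := by
      rw [hB]
      push_cast
      refine mul_le_mul_of_nonneg_left (pow_le_pow_left₀ (by positivity) ?_ c) (by positivity)
      rw [hN] at h1 ⊢
      exact_mod_cast h1
    refine h2.trans ?_
    rw [hC₁, mul_assoc]
    refine mul_le_mul_of_nonneg_left ?_ (by positivity)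
    have h3 := hpow ((d + 1) * c) (by omega)
    calc (2 * ((j : ℝ) * 2 ^ w) ^ (d + 1)) ^ c
        = 2 ^ c * (j : ℝ) ^ ((d + 1) * c) * 2 ^ ((d + 1) * c * w) := by
          rw [mul_pow, mul_pow, mul_pow, ← pow_mul, ← pow_mul, ← pow_mul]
          ring_nf
      _ ≤ 2 ^ c * (j : ℝ) ^ ((d + 1) * c) * (2 ^ ((d + 1) * c) * 2 ^ (ε * n)) :=
          mul_le_mul_of_nonneg_left h3 (by positivity)
      _ = _ := by ring
  have hWR : (size W : ℝ) ≤ 14 * 2 ^ (ε * n) := by
    have h1 := hpow 2 (by omega)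
    have h2 : (size W : ℝ) ≤ 3 * ((2 : ℝ) ^ w * 2 ^ w) + 2 := by exact_mod_cast hWs
    have h3 : (2 : ℝ) ^ w * 2 ^ w = 2 ^ (2 * w) := by rw [two_mul, pow_add]
    rw [h3] at h2
    nlinarith
  obtain ⟨J, hJ⟩ : ∃ J : List Unit, J.length = j := ⟨List.replicate j (), by simp⟩
  obtain ⟨Λ, hΛ⟩ : ∃ Λ : List Unit, Λ.length = B := ⟨List.replicate B (), by simp⟩
  refine ⟨code (J, Λ, W, a), ?_, fun φ hφ hv => ?_⟩
  · have h1 := code_length (J, Λ, W, a)
    rw [size_pair, size_pair, size_pair, size_units, size_units, size_bits, hJ, hΛ] at h1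
    have h2 : ((code (J, Λ, W, a)).length : ℝ) ≤
        2 * ((3 * j + 2) + ((3 * B + 2) + (size W + (3 * B + 2) + 1) + 1) + 1) := by
      have : (code (J, Λ, W, a)).length ≤ 2 * ((3 * j + 2) + ((3 * B + 2) + (size W + (3 * B + 2) + 1) + 1) + 1) := by
        omega
      exact_mod_cast this
    have h3 : (j : ℝ) ≤ j * 2 ^ (ε * n) := le_mul_of_one_le_right (by positivity) hexp1
    nlinarith
  · have hwid : φ.Width (d + 1) := fun C hC => (hφ C hC).trans (Nat.le_succ d)
    have hsat := grOf_sat (d := d + 1) (j := j) hj0 (Nat.succ_pos d) hWm hwn hwid hv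
    have hGn : (grOf (d + 1) j W φ).n ≤ N := by
      rw [hN, ← hWl]
      exact grOf_n _ _ _ _
    have h1 := hred _ hGn
    rw [hK, hsat] at h1
    rw [h1]
    constructor
    · rintro ⟨π, h2, h3⟩
      refine ⟨π, ?_, ?_⟩
      · have h4 : (π.length : ℝ) ≤ B := by exact_mod_cast h2
        refine (h4.trans hBR).trans ?_
        have : (0 : ℝ) ≤ 2 ^ (ε * n) := by positivity
        nlinarith
      · simp only [decode_code, V2, hΛ, hJ, Bool.and_eq_true, decide_eq_true_eq]
        exact ⟨h2, h3⟩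
    · rintro ⟨π, -, h3⟩
      simp only [decode_code, V2, hΛ, hJ, Bool.and_eq_true, decide_eq_true_eq] at h3
      exact ⟨π, h3.1, h3.2⟩

/-- Certificates give a reduction without queries. -/
theorem part0 (h : CliqueFreeCert) : FewQueries := by
  obtain ⟨V, F, c, hV, h⟩ := h
  refine ⟨fun _ => [], fun p => if p.2.1.2 = 0 then true else if p.2.1.2 = 1 then decide (0 < p.2.1.1.n)
    else !V (p.1, p.2.1, p.2.2.1), F, fun _ _ => 0, fun _ _ => 0, c, 1, one_pos, PT.const _, by fun_prop,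
    fun k δ hδ => ?_, fun k N => ?_⟩
  · filter_upwards [Filter.eventually_ge_atTop 1] with N hN
    simpa using Real.one_le_rpow (x := (N : ℝ)) (by exact_mod_cast hN) hδ.le
  obtain ⟨a, ha, hred⟩ : ∃ a : List Bool, a.length ≤ F k * (N + 1) ^ c ∧ (2 ≤ k → ∀ G : Gr, G.n ≤ N →
      (¬ CliqueP (G, k) ↔ ∃ π : List Bool, π.length ≤ F k * (N + 1) ^ c ∧ V (a, (G, k), π) = true)) := by
    by_cases hk : 2 ≤ k
    · obtain ⟨a, h1, h2⟩ := h k hk N
      exact ⟨a, h1, fun _ => h2⟩
    · exact ⟨[], by simp, fun h => absurd h hk⟩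
  refine ⟨a, 0, ha, by simp, ?_⟩
  rintro ⟨G, k'⟩ rfl hs
  refine ⟨fun r _ i hi => absurd hi (Nat.not_lt_zero i), ?_⟩
  simp only
  have hGn : G.n ≤ N := by
    rw [size_pair] at hs
    have h1 : size G = size G.1 + size G.2 + 1 := size_pair G.1 G.2
    have h2 := size_units G.1
    simp only [Gr.n]
    omega
  rcases Nat.lt_or_ge k' 2 with hk | hk
  · interval_cases k'
    · simp only [if_true, implies_true, iff_true]
      exact ⟨∅, by simp, by simp⟩
    · simp only [one_ne_zero, if_false, if_true, decide_eq_true_eq]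
      constructor
      · rintro ⟨s, -, h2⟩ _ _
        obtain ⟨x, -⟩ := Finset.card_pos.1 (Nat.lt_of_lt_of_le Nat.zero_lt_one h2)
        exact x.pos
      · intro h
        exact ⟨{⟨0, h [] (by simp)⟩}, by simp, by simp⟩
  · have h1 := hred hk G hGn
    have h2 : k' ≠ 0 := by omega
    have h3 : k' ≠ 1 := by omega
    simp only [h2, h3, if_false]
    rw [← not_iff_not, h1]
    push Not
    simp

theorem vars_bot : Cnf.vars [[]] = [] := by simp [Cnf.vars]

/-- `M[1] = W[1]` gives a reduction with one query. -/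
theorem M1EqW1.fewQueries (h : M1EqW1) : FewQueries := by
  obtain ⟨d, R, t, g, M, -, -, hM, h⟩ := (h (Gr × ℕ) CliqueP (fun a => a.2) PT.snd').2 (FptRed.refl _ _)
  obtain ⟨q, hq⟩ := PB.size hM
  have hI : FB fun k N => q.eval (N + (3 * t k + 2) + 1) :=
    ((FB.id.add (((FB.par fun _ => 3).mul (FB.par t)).add (FB.par fun _ => 2))).add (FB.par fun _ => 1)).eval q
  obtain ⟨F, e, hF⟩ := hI
  refine ⟨fun p => if ∀ C ∈ M (p.2.1, p.1.map fun _ => ()), C.length ≤ d then M (p.2.1, p.1.map fun _ => ())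
    else [[]], fun p => p.2.2.2.headD false, fun k => t k + 1,
    fun k N => g k * (F k + (Nat.log 2 (N + 1) + 1) * e), fun _ _ => d, 0, 1, one_pos, ?_, by fun_prop,
    fun k δ hδ => ?_,
    fun k N => ⟨List.replicate (t k) true, 1, by simp, by simp, fun x hx hxN => ⟨fun r _ i hi => ?_, ?_⟩⟩⟩
  · have : PT fun p : List Bool × (Gr × ℕ) × List Bool × List Bool => M (p.2.1, p.1.map fun _ => ()) :=
      hM.comp (by fun_prop)
    fun_prop
  · have hd : (0 : ℝ) < δ / (d + 1) := by positivity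
    filter_upwards [log_small (2 * (g k * (F k + e) + 1)) (δ / (d + 1)) hd, Filter.eventually_ge_atTop 1]
      with N hN hN1
    have hNR : (1 : ℝ) ≤ N := by exact_mod_cast hN1
    have h1 : ((Nat.log 2 (N + 1) : ℕ) : ℝ) ≤ Real.log N / Real.log 2 + 1 := by
      have h2 : (2 : ℝ) ^ (Nat.log 2 (N + 1)) ≤ N * 2 := by
        have h3 := Nat.pow_log_le_self 2 (show N + 1 ≠ 0 by omega)
        have h4 : 2 ^ (Nat.log 2 (N + 1)) ≤ N * 2 := by omega
        exact_mod_cast h4
      have h3 := Real.log_le_log (by positivity) h2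
      rw [Real.log_pow, Real.log_mul (by positivity) (by norm_num)] at h3
      have h5 : (0 : ℝ) < Real.log 2 := Real.log_pos (by norm_num)
      rw [div_add_one h5.ne', le_div_iff₀ h5]
      exact h3
    have h0 : (0 : ℝ) ≤ Real.log N / Real.log 2 := div_nonneg (Real.log_nonneg hNR) (Real.log_nonneg (by norm_num))
    have h2 : ((g k * (F k + (Nat.log 2 (N + 1) + 1) * e) : ℕ) : ℝ) + 1 ≤ (N : ℝ) ^ (δ / (d + 1)) := by
      refine le_trans ?_ hN
      push_cast
      have h3 : ((Nat.log 2 (N + 1) : ℕ) : ℝ) + 1 ≤ 2 * (Real.log N / Real.log 2 + 1) := by linarith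
      have h4 : (F k : ℝ) + ((Nat.log 2 (N + 1) : ℕ) + 1) * e ≤ (F k + e) * (2 * (Real.log N / Real.log 2 + 1)) := by
        have h5 : (F k : ℝ) ≤ F k * (2 * (Real.log N / Real.log 2 + 1)) :=
          le_mul_of_one_le_right (by positivity) (by linarith)
        have h6 : (((Nat.log 2 (N + 1) : ℕ) : ℝ) + 1) * e ≤ (2 * (Real.log N / Real.log 2 + 1)) * e :=
          mul_le_mul_of_nonneg_right h3 (by positivity)
        linarith
      have h5 := mul_le_mul_of_nonneg_left h4 (Nat.cast_nonneg (α := ℝ) (g k))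
      nlinarith
    calc (((g k * (F k + (Nat.log 2 (N + 1) + 1) * e) : ℕ) : ℝ) + 1) ^ d
        ≤ ((N : ℝ) ^ (δ / (d + 1))) ^ d := pow_le_pow_left₀ (by positivity) h2 d
      _ = (N : ℝ) ^ (δ / (d + 1) * d) := by rw [← Real.rpow_natCast, ← Real.rpow_mul (by positivity)]
      _ ≤ (N : ℝ) ^ δ := by
          refine Real.rpow_le_rpow_of_exponent_le hNR ?_
          rw [div_mul_eq_mul_div, div_le_iff₀ (by positivity)]
          nlinarith
  · obtain ⟨h1, h2, h3⟩ := h x
    simp only [List.map_replicate, ← hx] at h1 ⊢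
    rw [← h1]
    split
    · rename_i h'
      refine ⟨h', vars_le h3 ?_⟩
      rw [h1]
      have h4 : size (x, List.replicate (t x.2) ()) ≤ N + (3 * t x.2 + 2) + 1 := by
        rw [size_pair, size_units, List.length_replicate]
        omega
      refine ((hq _).trans (eval_mono q h4)).trans ((hF x.2 N).trans ?_)
      rw [pow_add, pow_mul]
      exact Nat.mul_le_mul Nat.lt_two_pow_self.le
        (Nat.pow_le_pow_left (Nat.lt_pow_succ_log_self (by norm_num) (N + 1)).le e)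
    · exact ⟨fun C hC => by simp at hC; simp [hC], by simp [vars_bot]⟩
  · obtain ⟨h1, h2, h3⟩ := h x
    simp only [answers, List.map_replicate, ← hx, List.nil_append, List.headD_cons, decide_eq_true_eq, ← h1]
    rw [h2]
    unfold LogSat Cnf.Width
    split
    · rename_i h'
      exact ⟨fun h _ _ => h.2, fun h => ⟨h', h [] (by simp)⟩⟩
    · rename_i h'
      refine iff_of_false (fun h => h' h.1) fun h => ?_
      obtain ⟨v, hv⟩ := h [] (by simp)
      simpa using hv [] (by simp)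

end Pool.Agent.Q9h3.MC
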